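import Pool.Agent.Lib.MP_ae0f86_nt.GC.Stm

/-!
# MP_ae0f86_nt : piece `[GC all]`
-/

set_option autoImplicit false

open CategoryTheory CategoryTheory.Limits Opposite MonoidalCategory Filter

universe w v u

namespace Pool.Agent.Lib.MP_ae0f86_nt.GC

noncomputable section

attribute [local instance] CategoryTheory.Abelian.hasFiniteBiproducts

variable {A : Type u} [Category.{v} A] [Abelian A] [MonoidalCategory A] [SymmetricCategory A]
  {HdR : A ⥤ ModuleCat.{0} QBar} {HB : A ⥤ ModuleCat.{0} ℚ} [FibreFunctor HdR]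
  [FibreFunctor HB]

omit [FibreFunctor HdR] in
private theorem all_pi_iota {n : ℕ} (W : A) (l m : Fin n) (x : HB.obj W) :
    (HB.map (biproduct.π (fun _ : Fin n => W) m)).hom
      ((HB.map (biproduct.ι (fun _ : Fin n => W) l)).hom x) = if l = m then x else 0 := by
  rw [← LinearMap.comp_apply, ← ModuleCat.hom_comp, ← HB.map_comp]
  by_cases h : l = m
  · subst h
    rw [biproduct.ι_π_self, HB.map_id, if_pos rfl]
    rfl
  · rw [biproduct.ι_π_ne _ h, HB.map_zero, if_neg h]
    rfl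

variable [RigidCategory A]

theorem p_all (c : Comparison HdR HB) (h1 : S_row HdR HB) (h2 : S_rev c) (h3 : S_rk c)
    (h4 : S_fwdim (A := A)) (h5 : S_fwev (A := A)) (h6 : S_arel HdR HB)
    (h7 : S_genclosed (A := A)) : S_all c := by
  intro _ M W hMW
  have hf : Module.Finite ℚ (HB.obj W) := FibreFunctor.finite W
  obtain ⟨n, hn⟩ : ∃ n, n = Module.finrank ℚ (HB.obj W) := ⟨_, rfl⟩
  obtain ⟨b⟩ : Nonempty (Module.Basis (Fin n) ℚ (HB.obj W)) := by
    rw [hn]; exact ⟨Module.finBasis ℚ (HB.obj W)⟩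
  have hlin : Lin W (⨁ fun _ : Fin n => W) :=
    ⟨n, ⨁ fun _ : Fin n => W, 𝟙 _, 𝟙 _, inferInstance, inferInstance⟩
  have hW' : Gen M (⨁ fun _ : Fin n => W) := h7.2.2.2 _ _ _ hMW (h7.2.2.1 _ _ hlin)
  obtain ⟨hal, hsl, har, hsr, hnat, hz, hz'⟩ := h6 (Gen M)
  have hadd : ∀ {N : A} (hN : Gen M N) (ω : HdR.obj N) (f : Fin n → Module.Dual ℚ (HB.obj N)),
      asym HdR HB hN ω (∑ l, f l) = ∑ l, asym HdR HB hN ω (f l) := by
    intro N hN ω f
    let R : Module.Dual ℚ (HB.obj N) →+ PerAlg HdR HB (Gen M) :=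
      { toFun := fun σ => asym HdR HB hN ω σ
        map_zero' := hz' hN ω
        map_add' := fun σ σ' => har hN ω σ σ' }
    exact map_sum R f Finset.univ
  let γ : BDual HB (⨁ fun _ : Fin n => W) :=
    ∑ l, (b.coord l) ∘ₗ (HB.map (biproduct.π (fun _ : Fin n => W) l)).hom
  have hγ : ∀ l, γ ∘ₗ (HB.map (biproduct.ι (fun _ : Fin n => W) l)).hom = b.coord l := by
    intro l
    apply LinearMap.ext
    intro x
    simp only [γ, LinearMap.comp_apply, LinearMap.sum_apply, all_pi_iota]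
    rw [Finset.sum_eq_single l]
    · rw [if_pos rfl]
    · intro m _ hm
      rw [if_neg (fun h => hm h.symm), map_zero]
    · intro h
      exact absurd (Finset.mem_univ l) h
  have hrow : row HdR HB hW' γ = fw HdR HB hMW := by
    apply le_antisymm
    · intro x hx
      obtain ⟨ω, rfl⟩ := (h1.2.1 hW' γ x).1 hx
      have e : asym HdR HB hW' ω γ = ∑ l, asym HdR HB hW' ω
          ((b.coord l) ∘ₗ (HB.map (biproduct.π (fun _ : Fin n => W) l)).hom) := hadd hW' ω _
      rw [e]
      refine Submodule.sum_mem _ fun l _ => ?_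
      rw [hnat hW' hMW]
      exact Submodule.subset_span ⟨_, _, rfl⟩
    · unfold fw
      rw [Submodule.span_le]
      rintro r ⟨ω, σ, rfl⟩
      have hσ : σ = ∑ l, (σ (b l)) • b.coord l := by
        refine b.ext fun i => ?_
        rw [LinearMap.sum_apply, Finset.sum_eq_single i]
        · simp
        · intro j _ hj
          simp [hj.symm]
        · intro h
          exact absurd (Finset.mem_univ i) h
      rw [SetLike.mem_coe, hσ, hadd]
      refine Submodule.sum_mem _ fun l _ => ?_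
      rw [hsr]
      refine Submodule.smul_mem _ _ ?_
      rw [← hγ l, hnat hMW hW']
      exact Submodule.subset_span ⟨_, rfl⟩
  refine ⟨⨁ fun _ : Fin n => W, γ, hW', ?_, ?_⟩
  · rw [h3 (h7.1 M) hW' γ, hrow]
    exact h4 c (h7.1 M) hMW
  · rw [h2.2.2 hW' γ, hrow, h5 c hMW]

end

end Pool.Agent.Lib.MP_ae0f86_nt.GC
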