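import Pool.Agent.Lib.MP_ae0f86_nt.GC.Stm

/-!
# MP_ae0f86_nt : piece [GC and]
-/

set_option autoImplicit false

universe w v u

open CategoryTheory CategoryTheory.Limits Opposite MonoidalCategory

namespace Pool.Agent.Lib.MP_ae0f86_nt.GC

noncomputable section

attribute [local instance] CategoryTheory.Abelian.hasFiniteBiproducts

/-- A nonzero polynomial does not vanish at all rational points. -/
theorem and_nonvanish {d : ℕ} (F : MvPolynomial (Fin d) QBar) (hF : F ≠ 0) :
    ∃ x : Fin d → ℚ, MvPolynomial.eval (fun i => algebraMap ℚ QBar (x i)) F ≠ 0 := by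
  by_contra hcon
  push Not at hcon
  apply hF
  refine MvPolynomial.funext_set (fun _ : Fin d => Set.range (algebraMap ℚ QBar))
    (fun _ => Set.infinite_range_of_injective (algebraMap ℚ QBar).injective) ?_
  intro y hy
  choose x hx using fun i => hy i (Set.mem_univ i)
  have : y = fun i => algebraMap ℚ QBar (x i) := funext fun i => (hx i).symm
  rw [this, hcon x, map_zero]

theorem p_and {A : Type u} [Category.{v} A] [Abelian A] [MonoidalCategory A]
    [SymmetricCategory A] (HB : A ⥤ ModuleCat.{0} ℚ) [FibreFunctor HB] : S_and HB := by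
  have hmul : ∀ (W : A) (P Q : BDual HB W → Prop), ForGeneric HB W P → ForGeneric HB W Q →
      ForGeneric HB W (fun γ => P γ ∧ Q γ) := by
    rintro W P Q ⟨F, hF, hP⟩ ⟨G, hG, hQ⟩
    refine ⟨F * G, mul_ne_zero hF hG, fun γ h => ?_⟩
    rw [map_mul] at h
    exact ⟨hP γ (left_ne_zero_of_mul h), hQ γ (right_ne_zero_of_mul h)⟩
  have htriv : ∀ (W : A) (P : BDual HB W → Prop), (∀ γ, P γ) → ForGeneric HB W P :=
    fun W P h => ⟨1, one_ne_zero, fun γ _ => h γ⟩
  have hmono : ∀ (W : A) (P Q : BDual HB W → Prop), ForGeneric HB W P → (∀ γ, P γ → Q γ) →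
      ForGeneric HB W Q := by
    rintro W P Q ⟨F, hF, hP⟩ h
    exact ⟨F, hF, fun γ hγ => h γ (hP γ hγ)⟩
  refine ⟨htriv, hmono, hmul, ?_, ?_, ?_⟩
  · intro W N P
    induction N with
    | zero => intro _; exact htriv W _ (fun γ j hj => absurd hj (Nat.not_lt_zero j))
    | succ N ih =>
      intro h
      refine hmono W _ _ (hmul W _ _ (ih fun j hj => h j (Nat.lt_succ_of_lt hj))
        (h N (Nat.lt_succ_self N))) ?_
      rintro γ ⟨h1, h2⟩ j hj
      rcases Nat.lt_succ_iff_lt_or_eq.mp hj with h3 | h3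
      · exact h1 j h3
      · rw [h3]; exact h2
  · intro W hW
    refine ⟨MvPolynomial.X ⟨0, hW⟩, MvPolynomial.X_ne_zero _, fun γ h => ?_⟩
    rintro rfl
    apply h
    rw [MvPolynomial.eval_X]
    change algebraMap ℚ QBar ((0 : Module.Dual ℚ (HB.obj W)) _) = 0
    rw [LinearMap.zero_apply, map_zero]
  · rintro W P ⟨F, hF, hP⟩
    obtain ⟨x, hx⟩ := and_nonvanish F hF
    refine ⟨(Module.finBasis ℚ (HB.obj W)).constr ℚ x, hP _ ?_⟩
    have : (fun i => algebraMap ℚ QBar (BDual.app
        ((Module.finBasis ℚ (HB.obj W)).constr ℚ x : BDual HB W)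
          (Module.finBasis ℚ (HB.obj W) i))) = fun i => algebraMap ℚ QBar (x i) := by
      funext i
      change algebraMap ℚ QBar (((Module.finBasis ℚ (HB.obj W)).constr ℚ x)
          (Module.finBasis ℚ (HB.obj W) i)) = _
      rw [Module.Basis.constr_basis]
    rw [this]
    exact hx

end

end Pool.Agent.Lib.MP_ae0f86_nt.GC
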