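import Pool.Agent.Lib.MP_ae0f86_nt.GC.Stm

/-!
# MP_ae0f86_nt : piece `[GC cmp]`
-/

set_option autoImplicit false

open CategoryTheory CategoryTheory.Limits Opposite MonoidalCategory Filter

universe w v u

namespace Pool.Agent.Lib.MP_ae0f86_nt.GC

noncomputable section

attribute [local instance] CategoryTheory.Abelian.hasFiniteBiproducts

variable {A : Type u} [Category.{v} A] [Abelian A] [MonoidalCategory A] [SymmetricCategory A]
  {HdR : A ⥤ ModuleCat.{0} QBar} {HB : A ⥤ ModuleCat.{0} ℚ} [FibreFunctor HdR]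
  [FibreFunctor HB]

omit [SymmetricCategory A] in
private theorem cmp_top : TClosed (fun _ : A => True) where
  sum := fun _ _ => trivial
  sub := fun _ _ _ => trivial
  quot := fun _ _ _ => trivial
  ne := ⟨𝟙_ A, trivial⟩
  unit := trivial
  tensor := fun _ _ => trivial

private theorem cmp_val_ne (c : Comparison HdR HB) {W : A} (γ : BDual HB W) (hγ : γ ≠ 0) :
    ∃ ω : HdR.obj W, c.val ω γ ≠ 0 := by
  by_contra hcon
  push Not at hcon
  have hx : ∃ x : HB.obj W, γ x ≠ 0 := by
    by_contra h
    push Not at h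
    exact hγ (LinearMap.ext h)
  obtain ⟨x, hx⟩ := hx
  obtain ⟨t, ht⟩ := (c.bij W).2 ((Algebra.linearMap ℚ ℂ) ∘ₗ (Module.Dual.eval ℚ (HB.obj W) x))
  have h0 : LinearMap.liftBaseChange ℂ (c.per W) t γ = 0 := by
    clear ht
    induction t using TensorProduct.induction_on with
    | zero => rw [map_zero, LinearMap.zero_apply]
    | tmul a ω =>
      rw [LinearMap.liftBaseChange_tmul, LinearMap.smul_apply]
      have := hcon ω
      change c.per W ω γ = 0 at this
      rw [this, smul_zero]
    | add a b ha hb => rw [map_add, LinearMap.add_apply, ha, hb, add_zero]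
  rw [ht] at h0
  have h1 : ((γ x : ℚ) : ℂ) = 0 := by
    simpa using h0
  exact hx (by exact_mod_cast h1)

theorem p_cmp (c : Comparison HdR HB) (h1 : S_row HdR HB) (h2 : S_rev c) (h3 : S_rk c)
    (h4 : S_fwdim (A := A)) (h5 : S_fwev (A := A)) (h6 : S_fwfin HdR HB) : S_cmp c := by
  intro _
  have hfin : ∀ {S : A → Prop} {W : A} (hW : S W) (γ : BDual HB W),
      Module.Finite QBar (row HdR HB hW γ) := fun hW γ => h1.2.2.2.1 hW γ
  have hle : ∀ {S : A → Prop} {W : A} (hW : S W) (γ : BDual HB W),
      row HdR HB hW γ ≤ fw HdR HB hW := fun hW γ => h1.1 hW γ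
  have hfw : ∀ {S : A → Prop} {W : A} (hW : S W), Module.Finite QBar (fw HdR HB hW) :=
    fun hW => h6 hW
  refine ⟨?_, ?_, ?_, ?_, ?_⟩
  · intro W γ
    have e1 := h2.2.2 (S := fun _ : A => True) (W := W) trivial γ
    have e2 := h3 cmp_top (W := W) trivial γ
    rw [e1, e2]
    have := hfin (S := fun _ : A => True) (W := W) trivial γ
    exact Submodule.finrank_map_le _ _
  · intro W γ
    have e1 := h2.2.2 (S := fun _ : A => True) (W := W) trivial γ
    have e2 := h3 cmp_top (W := W) trivial γ
    have e3 := h4 c cmp_top (W := W) trivial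
    have e4 := h5 c (S := fun _ : A => True) (W := W) trivial
    have := hfw (S := fun _ : A => True) (W := W) trivial
    constructor
    · rw [e2]
      calc _ ≤ Module.finrank QBar (fw HdR HB (S := fun _ : A => True) (W := W) trivial) :=
            Submodule.finrank_mono (hle _ γ)
        _ = _ := e3
    · rw [e1]
      unfold Pf
      rw [← e4]
      exact Submodule.finrank_mono (Submodule.map_mono (hle _ γ))
  · intro W γ hγ
    obtain ⟨ω, hω⟩ := cmp_val_ne c γ hγ
    have e1 := h2.2.2 (S := fun _ : A => True) (W := W) trivial γ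
    rw [e1]
    have := hfin (S := fun _ : A => True) (W := W) trivial γ
    rw [Submodule.one_le_finrank_iff]
    intro hb
    have hm : c.val ω γ ∈ (row HdR HB (S := fun _ : A => True) (W := W) trivial γ).map
        (c.evAlg (fun _ : A => True)).toLinearMap := (h2.2.1 _ γ _).2 ⟨ω, rfl⟩
    rw [hb, Submodule.mem_bot] at hm
    exact hω hm
  · intro S hS N W hN hW γ hNW
    have e1 := h2.2.2 hW γ
    have e2 := h3 hS hW γ
    have e3 := h4 c hS hN
    have e4 := h5 c hN
    have := hfin hW γ
    refine ⟨?_, ?_, ?_⟩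
    · rw [e2]
      calc _ = Module.finrank QBar (fw HdR HB hN) := e3.symm
        _ ≤ _ := Submodule.finrank_mono hNW
    · rw [e1]
      unfold Pf
      rw [← e4]
      exact Submodule.finrank_mono (Submodule.map_mono hNW)
    · intro z hz
      have hz' : z ∈ Submodule.span QBar (c.Per N) := Submodule.subset_span hz
      rw [← e4] at hz'
      exact (h2.2.1 hW γ z).1 (Submodule.map_mono hNW hz')
  · intro W
    have hf : Module.Finite ℚ (HB.obj W) := FibreFunctor.finite W
    calc Nf HB W ≤ Module.finrank ℚ (Module.End ℚ (HB.obj W)) := Submodule.finrank_le _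
      _ = Module.finrank ℚ (HB.obj W) * Module.finrank ℚ (HB.obj W) :=
          Module.finrank_linearMap ℚ ℚ _ _
      _ = _ := by rw [pow_two]

end

end Pool.Agent.Lib.MP_ae0f86_nt.GC
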