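import Pool.Agent.Lib.MP_ae0f86_nt.GC.Stm

set_option autoImplicit false

open CategoryTheory CategoryTheory.Limits Opposite MonoidalCategory Filter

universe w v u

namespace Pool.Agent.Lib.MP_ae0f86_nt.GC

noncomputable section

attribute [local instance] CategoryTheory.Abelian.hasFiniteBiproducts

variable {A : Type u} [Category.{v} A] [Abelian A] [MonoidalCategory A] [SymmetricCategory A]

omit [Abelian A] [MonoidalCategory A] [SymmetricCategory A] in
private theorem cop_comp (HB : A ⥤ ModuleCat.{0} ℚ) {M N P : A} (f : M ⟶ N) (g : N ⟶ P)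
    (x : HB.obj M) : act HB (f ≫ g) x = act HB g (act HB f x) := by
  simp [act]

/-- the products span `HB(M ⊗ N)` -/
private theorem cop_ext (HB : A ⥤ ModuleCat.{0} ℚ) [FibreFunctor HB] {M N : A} {V : Type}
    [AddCommGroup V] [Module ℚ V] (f g : HB.obj (M ⊗ N) →ₗ[ℚ] V)
    (h : ∀ (x : HB.obj M) (y : HB.obj N), f ((FibreFunctor.mul M N).app x y) =
      g ((FibreFunctor.mul M N).app x y)) (z : HB.obj (M ⊗ N)) : f z = g z := by
  obtain ⟨t, rfl⟩ := (FibreFunctor.bij (H := HB) M N).2 z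
  have h1 : f ∘ₗ TensorProduct.lift (FibreFunctor.mul M N) =
      g ∘ₗ TensorProduct.lift (FibreFunctor.mul M N) := by
    apply TensorProduct.ext'
    intro x y
    simpa using h x y
  exact LinearMap.congr_fun h1 t

private theorem cop_tensor (HB : A ⥤ ModuleCat.{0} ℚ) [FibreFunctor HB] {M M' M'' N N' N'' : A}
    (f : M ⟶ M') (g : M' ⟶ M'') (f' : N ⟶ N') (g' : N' ⟶ N'') (x : HB.obj M) (y : HB.obj N) :
    act HB (g ⊗ₘ g') (act HB (f ⊗ₘ f') ((FibreFunctor.mul M N).app x y)) =
      (FibreFunctor.mul M'' N'').app (act HB g (act HB f x)) (act HB g' (act HB f' y)) := by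
  rw [FibreFunctor.nat, FibreFunctor.nat]

theorem p_cop (HB : A ⥤ ModuleCat.{0} ℚ) [FibreFunctor HB] : S_cop HB := by
  refine ⟨?_, ?_, ?_, ?_, ?_, ?_⟩
  · intro N N' e
    refine ⟨fun _ => e.hom, fun _ => e.inv, fun a b y => ?_⟩
    rw [if_pos (Subsingleton.elim a b), ← cop_comp, e.hom_inv_id]
    simp [act]
  · rintro N N' W p q ⟨ι, π, h⟩ ⟨ι', π', h'⟩
    refine ⟨fun c => ι (finProdFinEquiv.symm c).1 ≫ ι' (finProdFinEquiv.symm c).2,
      fun c => π' (finProdFinEquiv.symm c).2 ≫ π (finProdFinEquiv.symm c).1, fun a b y => ?_⟩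
    rw [cop_comp, cop_comp, h']
    by_cases hab : a = b
    · subst hab
      rw [if_pos rfl, if_pos rfl, h, if_pos rfl]
    · rw [if_neg hab]
      by_cases h2 : (finProdFinEquiv.symm a).2 = (finProdFinEquiv.symm b).2
      · rw [if_pos h2, h, if_neg]
        intro h1
        exact hab (finProdFinEquiv.symm.injective (Prod.ext h1 h2))
      · rw [if_neg h2]
        exact map_zero _
  · rintro N N' X X' p q ⟨ι, π, h⟩ ⟨ι', π', h'⟩
    refine ⟨fun c => ι (finProdFinEquiv.symm c).1 ⊗ₘ ι' (finProdFinEquiv.symm c).2,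
      fun c => π (finProdFinEquiv.symm c).1 ⊗ₘ π' (finProdFinEquiv.symm c).2, fun a b y => ?_⟩
    by_cases hab : a = b
    · subst hab
      rw [if_pos rfl]
      refine cop_ext HB
        ((HB.map (π (finProdFinEquiv.symm a).1 ⊗ₘ π' (finProdFinEquiv.symm a).2)).hom ∘ₗ
          (HB.map (ι (finProdFinEquiv.symm a).1 ⊗ₘ ι' (finProdFinEquiv.symm a).2)).hom)
        LinearMap.id ?_ y
      intro x y
      refine (cop_tensor HB _ _ _ _ x y).trans ?_
      rw [h, h', if_pos rfl, if_pos rfl]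
      rfl
    · rw [if_neg hab]
      refine cop_ext HB
        ((HB.map (π (finProdFinEquiv.symm b).1 ⊗ₘ π' (finProdFinEquiv.symm b).2)).hom ∘ₗ
          (HB.map (ι (finProdFinEquiv.symm a).1 ⊗ₘ ι' (finProdFinEquiv.symm a).2)).hom)
        0 ?_ y
      intro x y
      refine (cop_tensor HB _ _ _ _ x y).trans ?_
      rw [h, h']
      by_cases h1 : (finProdFinEquiv.symm a).1 = (finProdFinEquiv.symm b).1
      · have h2 : (finProdFinEquiv.symm a).2 ≠ (finProdFinEquiv.symm b).2 := fun h2 =>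
          hab (finProdFinEquiv.symm.injective (Prod.ext h1 h2))
        rw [if_neg h2]
        exact map_zero _
      · rw [if_neg h1]
        exact LinearMap.map_zero₂ _ _
  · rintro N W p q hpq ⟨ι, π, h⟩
    refine ⟨fun a => ι (Fin.castLE hpq a), fun a => π (Fin.castLE hpq a), fun a b y => ?_⟩
    rw [h]
    by_cases hab : a = b
    · subst hab
      rw [if_pos rfl, if_pos rfl]
    · rw [if_neg hab, if_neg]
      intro h1
      exact hab (Fin.castLE_injective hpq h1)
  · rintro N B C X m n ⟨i, p, j, q, hip, hjq, hiq, hjp⟩ ⟨ι, π, h⟩ ⟨ι', π', h'⟩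
    have key : ∀ (a b : Fin m ⊕ Fin n) (y : HB.obj N),
        act HB (Sum.elim (fun a => p ≫ π a) (fun b => q ≫ π' b) b : X ⟶ N)
          (act HB (Sum.elim (fun a => ι a ≫ i) (fun b => ι' b ≫ j) a : N ⟶ X) y) =
          if a = b then y else 0 := by
      rintro (a | a) (b | b) y
      · simp only [Sum.elim_inl]
        rw [cop_comp, cop_comp, hip, h]
        by_cases hab : a = b
        · subst hab
          rw [if_pos rfl, if_pos rfl]
        · rw [if_neg hab, if_neg (fun h1 => hab (Sum.inl_injective h1))]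
      · simp only [Sum.elim_inl, Sum.elim_inr]
        rw [cop_comp, cop_comp, hiq, if_neg (by simp)]
        exact map_zero _
      · simp only [Sum.elim_inl, Sum.elim_inr]
        rw [cop_comp, cop_comp, hjp, if_neg (by simp)]
        exact map_zero _
      · simp only [Sum.elim_inr]
        rw [cop_comp, cop_comp, hjq, h']
        by_cases hab : a = b
        · subst hab
          rw [if_pos rfl, if_pos rfl]
        · rw [if_neg hab, if_neg (fun h1 => hab (Sum.inr_injective h1))]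
    refine ⟨fun c => Sum.elim (fun a => ι a ≫ i) (fun b => ι' b ≫ j) (finSumFinEquiv.symm c),
      fun c => Sum.elim (fun a => p ≫ π a) (fun b => q ≫ π' b) (finSumFinEquiv.symm c),
      fun a b y => ?_⟩
    rw [key]
    by_cases hab : a = b
    · subst hab
      rw [if_pos rfl, if_pos rfl]
    · rw [if_neg hab, if_neg (fun h1 => hab (finSumFinEquiv.symm.injective h1))]
  · rintro N X B C ⟨i, p, j, q, hip, hjq, hiq, hjp⟩
    have h1 : ∀ x : HB.obj N, act HB (𝟙 N) (act HB (𝟙 N) x) = x := fun x => by simp [act]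
    refine ⟨𝟙 N ⊗ₘ i, 𝟙 N ⊗ₘ p, 𝟙 N ⊗ₘ j, 𝟙 N ⊗ₘ q, ?_, ?_, ?_, ?_⟩
    · intro y
      refine cop_ext HB ((HB.map (𝟙 N ⊗ₘ p)).hom ∘ₗ (HB.map (𝟙 N ⊗ₘ i)).hom)
        LinearMap.id ?_ y
      intro x y
      refine (cop_tensor HB _ _ _ _ x y).trans ?_
      rw [h1, hip]
      rfl
    · intro y
      refine cop_ext HB ((HB.map (𝟙 N ⊗ₘ q)).hom ∘ₗ (HB.map (𝟙 N ⊗ₘ j)).hom)
        LinearMap.id ?_ y
      intro x y
      refine (cop_tensor HB _ _ _ _ x y).trans ?_
      rw [h1, hjq]
      rfl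
    · intro y
      refine cop_ext HB ((HB.map (𝟙 N ⊗ₘ q)).hom ∘ₗ (HB.map (𝟙 N ⊗ₘ i)).hom)
        0 ?_ y
      intro x y
      refine (cop_tensor HB _ _ _ _ x y).trans ?_
      rw [hiq]
      exact map_zero _
    · intro y
      refine cop_ext HB ((HB.map (𝟙 N ⊗ₘ p)).hom ∘ₗ (HB.map (𝟙 N ⊗ₘ j)).hom)
        0 ?_ y
      intro x y
      refine (cop_tensor HB _ _ _ _ x y).trans ?_
      rw [hjp]
      exact map_zero _

end

end Pool.Agent.Lib.MP_ae0f86_nt.GC
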