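import Pool.Agent.Lib.MP_ae0f86_nt.GC.Stm

/-!
# MP_ae0f86_nt : piece [GC ext]
-/

set_option autoImplicit false

open CategoryTheory CategoryTheory.Limits Opposite MonoidalCategory Filter

universe w v u

namespace Pool.Agent.Lib.MP_ae0f86_nt.GC

noncomputable section

attribute [local instance] CategoryTheory.Abelian.hasFiniteBiproducts

variable {A : Type u} [Category.{v} A] [Abelian A] [MonoidalCategory A] [SymmetricCategory A]

omit [Abelian A] [MonoidalCategory A] [SymmetricCategory A] in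
/-- The value of `H(f ≫ g)`. -/
theorem ext_act_comp (HB : A ⥤ ModuleCat.{0} ℚ) {X Y Z : A} (f : X ⟶ Y) (g : Y ⟶ Z)
    (y : HB.obj X) : act HB g (act HB f y) = act HB (f ≫ g) y := by
  unfold act
  rw [HB.map_comp]
  rfl

omit [Abelian A] [MonoidalCategory A] [SymmetricCategory A] in
theorem ext_act_id (HB : A ⥤ ModuleCat.{0} ℚ) {X : A} (y : HB.obj X) :
    act HB (𝟙 X) y = y := by
  unfold act
  rw [HB.map_id]
  rfl

omit [MonoidalCategory A] [SymmetricCategory A] in
theorem ext_act_zero (HB : A ⥤ ModuleCat.{0} ℚ) [HB.Additive] {X Y : A} (y : HB.obj X) :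
    act HB (0 : X ⟶ Y) y = 0 := by
  unfold act
  rw [HB.map_zero]
  rfl

omit [MonoidalCategory A] [SymmetricCategory A] in
theorem ext_act_add (HB : A ⥤ ModuleCat.{0} ℚ) [HB.Additive] {X Y : A} (f g : X ⟶ Y)
    (y : HB.obj X) : act HB (f + g) y = act HB f y + act HB g y := by
  unfold act
  rw [HB.map_add]
  rfl

omit [MonoidalCategory A] [SymmetricCategory A] in
theorem ext_act_sub (HB : A ⥤ ModuleCat.{0} ℚ) [HB.Additive] {X Y : A} (f g : X ⟶ Y)
    (y : HB.obj X) : act HB (f - g) y = act HB f y - act HB g y := by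
  unfold act
  rw [HB.map_sub]
  rfl

/-- If `H(f)` kills a nonzero vector then the kernel of `f` is not zero. -/
theorem ext_ker (HB : A ⥤ ModuleCat.{0} ℚ) [FibreFunctor HB] {X Y : A} (f : X ⟶ Y)
    (z : HB.obj X) (hz : z ≠ 0) (hf : act HB f z = 0) : ¬ IsZero (kernel f) := by
  intro h
  have : Mono f := Preadditive.mono_of_isZero_kernel f h
  have hinj : Function.Injective (HB.map f) := (ModuleCat.mono_iff_injective _).1 inferInstance
  apply hz
  apply hinj
  change act HB f z = act HB f 0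
  rw [hf]
  unfold act
  rw [map_zero]

/-- A nonzero tensor. -/
theorem ext_tensor (HB : A ⥤ ModuleCat.{0} ℚ) [FibreFunctor HB] (T : A)
    (f g : Module.Dual ℚ (HB.obj T)) (z : TensorProduct ℚ (HB.obj T) (HB.obj T))
    (h : (LinearMap.mul' ℚ ℚ ∘ₗ TensorProduct.map f g) z ≠ 0) :
    TensorProduct.lift (FibreFunctor.mul (H := HB) T T) z ≠ 0 := by
  intro h0
  apply h
  have hb := (FibreFunctor.bij (H := HB) T T).1
  have : z = 0 := hb (by rw [h0, map_zero])
  rw [this, map_zero]

theorem p_ext (HB : A ⥤ ModuleCat.{0} ℚ) [FibreFunctor HB] : S_ext HB := by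
  intro _ T hT
  set β : T ⊗ T ⟶ T ⊗ T := (β_ T T).hom with hβ
  have hββ : β ≫ β = 𝟙 (T ⊗ T) := SymmetricCategory.symmetry T T
  let i : kernel (β - 𝟙 _) ⟶ T ⊗ T := kernel.ι (β - 𝟙 _)
  let j : kernel (β + 𝟙 _) ⟶ T ⊗ T := kernel.ι (β + 𝟙 _)
  have hi : i ≫ β = i := by
    have h := kernel.condition (β - 𝟙 (T ⊗ T))
    rw [Preadditive.comp_sub, Category.comp_id, sub_eq_zero] at h
    exact h
  have hj : j ≫ β = -j := by
    have h := kernel.condition (β + 𝟙 (T ⊗ T))
    rw [Preadditive.comp_add, Category.comp_id, add_eq_zero_iff_eq_neg] at h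
    exact h
  have h1 : (𝟙 (T ⊗ T) + β) ≫ (β - 𝟙 _) = 0 := by
    rw [Preadditive.add_comp, Preadditive.comp_sub, Preadditive.comp_sub, hββ]
    simp
  have h2 : (𝟙 (T ⊗ T) - β) ≫ (β + 𝟙 _) = 0 := by
    rw [Preadditive.sub_comp, Preadditive.comp_add, Preadditive.comp_add, hββ]
    simp
    abel
  let p : T ⊗ T ⟶ kernel (β - 𝟙 _) := (1 / 2 : ℚ) • kernel.lift (β - 𝟙 _) (𝟙 (T ⊗ T) + β) h1
  let q : T ⊗ T ⟶ kernel (β + 𝟙 _) := (1 / 2 : ℚ) • kernel.lift (β + 𝟙 _) (𝟙 (T ⊗ T) - β) h2
  have hpi : p ≫ i = (1 / 2 : ℚ) • (𝟙 (T ⊗ T) + β) := by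
    rw [Linear.smul_comp, kernel.lift_ι]
  have hqj : q ≫ j = (1 / 2 : ℚ) • (𝟙 (T ⊗ T) - β) := by
    rw [Linear.smul_comp, kernel.lift_ι]
  have half : ∀ {X : A} (f : X ⟶ T ⊗ T), (1 / 2 : ℚ) • (f + f) = f := by
    intro X f
    rw [← two_smul ℚ f, smul_smul]
    norm_num
  have hip : i ≫ p = 𝟙 _ := by
    rw [← cancel_mono i, Category.assoc, hpi, Linear.comp_smul, Preadditive.comp_add,
      Category.comp_id, hi, half, Category.id_comp]
  have hjq : j ≫ q = 𝟙 _ := by
    rw [← cancel_mono j, Category.assoc, hqj, Linear.comp_smul, Preadditive.comp_sub,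
      Category.comp_id, hj, sub_neg_eq_add, half, Category.id_comp]
  have hiq : i ≫ q = 0 := by
    rw [← cancel_mono j, Category.assoc, hqj, Linear.comp_smul, Preadditive.comp_sub,
      Category.comp_id, hi, sub_self, smul_zero, zero_comp]
  have hjp : j ≫ p = 0 := by
    rw [← cancel_mono i, Category.assoc, hpi, Linear.comp_smul, Preadditive.comp_add,
      Category.comp_id, hj, add_neg_cancel, smul_zero, zero_comp]
  -- elements
  let b := Module.finBasis ℚ (HB.obj T)
  let k0 : Fin (Module.finrank ℚ (HB.obj T)) := ⟨0, by omega⟩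
  let k1 : Fin (Module.finrank ℚ (HB.obj T)) := ⟨1, by omega⟩
  have hk : k0 ≠ k1 := by
    intro h
    have := congrArg Fin.val h
    simp [k0, k1] at this
  have e00 : b.coord k0 (b k0) = 1 := by simp
  have e01 : b.coord k0 (b k1) = 0 := by
    rw [Module.Basis.coord_apply, Module.Basis.repr_self, Finsupp.single_apply,
      if_neg (fun h => hk h.symm)]
  have e11 : b.coord k1 (b k1) = 1 := by simp
  have e10 : b.coord k1 (b k0) = 0 := by
    rw [Module.Basis.coord_apply, Module.Basis.repr_self, Finsupp.single_apply, if_neg hk]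
  have hz1 : FibreFunctor.mul (H := HB) T T (b k0) (b k0) ≠ 0 := by
    have := ext_tensor HB T (b.coord k0) (b.coord k0)
      (TensorProduct.tmul ℚ (b k0) (b k0)) (by
        rw [LinearMap.comp_apply, TensorProduct.map_tmul, LinearMap.mul'_apply, e00]
        norm_num)
    rwa [TensorProduct.lift.tmul] at this
  have hz2 : FibreFunctor.mul (H := HB) T T (b k0) (b k1) -
      FibreFunctor.mul (H := HB) T T (b k1) (b k0) ≠ 0 := by
    have := ext_tensor HB T (b.coord k0) (b.coord k1)
      (TensorProduct.tmul ℚ (b k0) (b k1) - TensorProduct.tmul ℚ (b k1) (b k0)) (by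
        rw [map_sub, LinearMap.comp_apply, LinearMap.comp_apply, TensorProduct.map_tmul,
          TensorProduct.map_tmul, LinearMap.mul'_apply, LinearMap.mul'_apply, e00, e11, e01, e10]
        norm_num)
    rwa [map_sub, TensorProduct.lift.tmul, TensorProduct.lift.tmul] at this
  have hc : ∀ x y : HB.obj T, act HB β (FibreFunctor.mul (H := HB) T T x y) =
      FibreFunctor.mul (H := HB) T T y x := fun x y => FibreFunctor.mul_comm x y
  refine ⟨kernel (β - 𝟙 _), kernel (β + 𝟙 _), i, j, inferInstance, inferInstance, ?_, ?_,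
    i, p, j, q, ?_, ?_, ?_, ?_⟩
  · refine ext_ker HB _ _ hz1 ?_
    rw [ext_act_sub, hc, ext_act_id, sub_self]
  · refine ext_ker HB _ _ hz2 ?_
    have hs : act HB β (FibreFunctor.mul (H := HB) T T (b k0) (b k1) -
        FibreFunctor.mul (H := HB) T T (b k1) (b k0)) =
        FibreFunctor.mul (H := HB) T T (b k1) (b k0) -
        FibreFunctor.mul (H := HB) T T (b k0) (b k1) := by
      have : act HB β (FibreFunctor.mul (H := HB) T T (b k0) (b k1) -
        FibreFunctor.mul (H := HB) T T (b k1) (b k0)) =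
        act HB β (FibreFunctor.mul (H := HB) T T (b k0) (b k1)) -
        act HB β (FibreFunctor.mul (H := HB) T T (b k1) (b k0)) := by
        unfold act
        rw [map_sub]
      rw [this, hc, hc]
    rw [ext_act_add, hs, ext_act_id]
    abel
  · intro y
    rw [ext_act_comp, hip, ext_act_id]
  · intro y
    rw [ext_act_comp, hjq, ext_act_id]
  · intro y
    rw [ext_act_comp, hiq, ext_act_zero]
  · intro y
    rw [ext_act_comp, hjp, ext_act_zero]

end

end Pool.Agent.Lib.MP_ae0f86_nt.GC
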