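import Pool.Agent.Lib.MP_ae0f86_nt.GC.Stm

/-!
# MP_ae0f86_nt : piece `[GC fwpow]`
-/

set_option autoImplicit false

open CategoryTheory CategoryTheory.Limits Opposite MonoidalCategory Filter

universe w v u

namespace Pool.Agent.Lib.MP_ae0f86_nt.GC

noncomputable section

attribute [local instance] CategoryTheory.Abelian.hasFiniteBiproducts

variable {A : Type u} [Category.{v} A] [Abelian A] [MonoidalCategory A] [SymmetricCategory A]
  [RigidCategory A]

variable {HdR : A ⥤ ModuleCat.{0} QBar} {HB : A ⥤ ModuleCat.{0} ℚ} [FibreFunctor HdR]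
  [FibreFunctor HB]

omit [RigidCategory A] [SymmetricCategory A] in
private theorem fwpow_mem {S : A → Prop} (hS : TClosed S) {T : A} (hT : S T) (n : ℕ) :
    S (tpow T n) := by
  induction n with
  | zero => exact hS.unit
  | succ n ih => exact hS.tensor ih hT

omit [RigidCategory A] in
private theorem fwpow_pow (h1 : S_fwprod HdR HB) {S : A → Prop} (hS : TClosed S) {T : A}
    (hT : S T) (n : ℕ) (hn : S (tpow T n)) :
    fw HdR HB hn = (fw HdR HB hT) ^ n := by
  induction n with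
  | zero => exact (h1.2 (S := S) hn).trans (pow_zero (fw HdR HB hT)).symm
  | succ n ih =>
    have hn' : S (tpow T n) := fwpow_mem hS hT n
    have h9 := h1.1 hn' hT hn
    rw [ih hn'] at h9
    exact h9.trans (pow_succ (fw HdR HB hT) n).symm

private theorem fwpow_sup {K : Type} [Field K] {R : Type w} [CommRing R] [Algebra K R]
    (V : Submodule K R) (m : ℕ) : (1 ⊔ V) ^ m ≤ ⨆ j : Fin (m + 1), V ^ (j : ℕ) := by
  induction m with
  | zero =>
    rw [pow_zero]
    refine le_trans ?_ (le_iSup _ (0 : Fin 1))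
    rw [Fin.val_zero, pow_zero]
  | succ m ih =>
    rw [pow_succ]
    refine le_trans (mul_le_mul_left ih (1 ⊔ V)) ?_
    rw [Submodule.iSup_mul]
    refine iSup_le fun j => ?_
    rw [Submodule.mul_sup, mul_one]
    refine sup_le ?_ ?_
    · refine le_trans ?_ (le_iSup _ (j.castSucc : Fin (m + 1 + 1)))
      rw [Fin.val_castSucc]
    · refine le_trans ?_ (le_iSup _ (j.succ : Fin (m + 1 + 1)))
      rw [Fin.val_succ, pow_succ]

private theorem fwpow_u (h5 : S_arel HdR HB) (M : A) :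
    fw HdR HB (uT_mem M) ≤
      fw HdR HB (S := Gen M) (W := 𝟙_ A) Gen.unit ⊔ fw HdR HB (S := Gen M) (W := M) Gen.base := by
  obtain ⟨hal, hsl, har, hsr, hf, hz, hz'⟩ := h5 (Gen M)
  refine Submodule.span_le.2 ?_
  rintro _ ⟨ω, σ, rfl⟩
  have e1 : ω = (HdR.map ((biprod.fst : uT M ⟶ 𝟙_ A) ≫ biprod.inl)).hom ω +
      (HdR.map ((biprod.snd : uT M ⟶ M) ≫ biprod.inr)).hom ω := by
    have e2 : (HdR.map ((biprod.fst : uT M ⟶ 𝟙_ A) ≫ biprod.inl +
        (biprod.snd : uT M ⟶ M) ≫ biprod.inr)).hom ω = ω := by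
      rw [biprod.total, HdR.map_id]
      rfl
    rw [HdR.map_add] at e2
    exact e2.symm
  rw [e1, hal]
  refine Submodule.add_mem _ ?_ ?_
  · refine (le_sup_left : _ ≤ fw HdR HB (S := Gen M) (W := 𝟙_ A) Gen.unit ⊔ _) ?_
    have e3 : (HdR.map ((biprod.fst : uT M ⟶ 𝟙_ A) ≫ biprod.inl)).hom ω =
        (HdR.map (biprod.inl : 𝟙_ A ⟶ uT M)).hom ((HdR.map (biprod.fst : uT M ⟶ 𝟙_ A)).hom ω) := by
      rw [HdR.map_comp]
      rfl
    rw [e3, ← hf Gen.unit (uT_mem M) biprod.inl]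
    exact Submodule.subset_span ⟨_, _, rfl⟩
  · refine (le_sup_right : _ ≤ _ ⊔ fw HdR HB (S := Gen M) (W := M) Gen.base) ?_
    have e3 : (HdR.map ((biprod.snd : uT M ⟶ M) ≫ biprod.inr)).hom ω =
        (HdR.map (biprod.inr : M ⟶ uT M)).hom ((HdR.map (biprod.snd : uT M ⟶ M)).hom ω) := by
      rw [HdR.map_comp]
      rfl
    rw [e3, ← hf Gen.base (uT_mem M) biprod.inr]
    exact Submodule.subset_span ⟨_, _, rfl⟩

theorem p_fwpow (c : Comparison HdR HB) (h1 : S_fwprod HdR HB) (h2 : S_fwfin HdR HB)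
    (h3 : S_fwdim (A := A)) (h4 : S_pow.{u}) (h5 : S_arel HdR HB) (h6 : S_genclosed (A := A)) :
    S_fwpow c := by
  intro _
  refine ⟨?_, ?_, ?_⟩
  · intro S hS T hT n hn
    exact fwpow_pow h1 hS hT n hn
  · intro S hS T hT n hn
    rw [fwpow_pow h1 hS hT n hn]
    have hfin : Module.Finite QBar (fw HdR HB hT) := h2 hT
    refine h4 QBar (PerAlg HdR HB S) (fw HdR HB hT) _ n ?_
    rw [h3 c hS hT]
    have hf2 : Module.Finite ℚ (HB.obj T) := FibreFunctor.finite T
    refine (Submodule.finrank_le _).trans ?_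
    rw [Module.finrank_linearMap, sq]
  · intro M m
    have hC : TClosed (Gen M) := h6.1 M
    have e1 : fw HdR HB (uTpow_mem M m) = (fw HdR HB (uT_mem M)) ^ m :=
      fwpow_pow h1 hC (uT_mem M) m (uTpow_mem M m)
    rw [e1]
    have e2 : ∀ j : ℕ, fw HdR HB (genpow_mem M j) =
        (fw HdR HB (S := Gen M) (W := M) Gen.base) ^ j := fun j =>
      fwpow_pow h1 hC (S := Gen M) (T := M) Gen.base j (genpow_mem M j)
    have e3 := fwpow_u h5 M
    rw [h1.2 (S := Gen M) Gen.unit] at e3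
    refine (pow_le_pow_left' e3 m).trans ((fwpow_sup _ m).trans ?_)
    refine iSup_mono fun j => ?_
    rw [e2]

end

end Pool.Agent.Lib.MP_ae0f86_nt.GC
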