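import Pool.Agent.Lib.MP_ae0f86_nt.GC.Stm

/-!
# MP_ae0f86_nt : piece [GC gen], a generic row of an object with many copies of `N`
-/

set_option autoImplicit false

open CategoryTheory CategoryTheory.Limits Opposite MonoidalCategory Filter

universe w v u

namespace Pool.Agent.Lib.MP_ae0f86_nt.GC

noncomputable section

attribute [local instance] CategoryTheory.Abelian.hasFiniteBiproducts

theorem p_gen {A : Type u} [Category.{v} A] [Abelian A] [MonoidalCategory A]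
    [SymmetricCategory A] {HdR : A ⥤ ModuleCat.{0} QBar} {HB : A ⥤ ModuleCat.{0} ℚ}
    [FibreFunctor HdR] [FibreFunctor HB]
    (h1 : S_sel.{u, 0}) (h2 : S_row HdR HB) (h3 : S_sem.{u, v, u} HdR HB)
    (h4 : S_arel HdR HB) (h5 : S_fwfin HdR HB) : S_gen HdR HB := by
  intro S N W hN hW q hcop hq
  obtain ⟨ι, π, hιπ⟩ := hcop
  have hfin : Module.Finite QBar (fw HdR HB hN) := h5 hN
  obtain ⟨-, -, hr3, -, -, -⟩ := h2
  have hsup : ⨆ σ, row HdR HB hN σ = fw HdR HB hN := hr3 hN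
  have hfin' : Module.Finite QBar ↥(⨆ σ : BDual HB N, row HdR HB hN σ) := by
    rw [hsup]; exact hfin
  obtain ⟨σ, hσ⟩ := h1 QBar (PerAlg HdR HB S) (BDual HB N)
    (fun σ => row HdR HB hN σ) q (by rw [hsup]; exact hq)
  obtain ⟨-, -, -, -, hfun, -, -⟩ := h4 S
  let γ0 : BDual HB W := ∑ b, (σ b) ∘ₗ (HB.map (π b)).hom
  have hγ0 : ∀ a, γ0 ∘ₗ (HB.map (ι a)).hom = σ a := by
    intro a
    refine LinearMap.ext fun y => ?_
    have e : (γ0 ∘ₗ (HB.map (ι a)).hom) y =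
        ∑ b, σ b (act HB (π b) (act HB (ι a) y)) := by
      simp [γ0]
    rw [e, Finset.sum_eq_single a]
    · rw [hιπ, if_pos rfl]
    · intro b _ hb
      rw [hιπ, if_neg (Ne.symm hb), map_zero]
    · intro h
      exact absurd (Finset.mem_univ a) h
  let Ω : Set (HdR.obj W) := {ω' | ∃ (a : Fin q) (ω : HdR.obj N), ω' = (HdR.map (ι a)).hom ω}
  let V : BDual HB W → Submodule QBar (PerAlg HdR HB S) := fun γ => Submodule.span QBar
    {r | ∃ ω ∈ Ω, r = (LinearMap.id : PerAlg HdR HB S →ₗ[QBar] PerAlg HdR HB S)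
      (asym HdR HB hW ω γ)}
  have hVle : ∀ γ, V γ ≤ fw HdR HB hN := by
    intro γ
    refine Submodule.span_le.2 ?_
    rintro r ⟨ω', ⟨a, ω, rfl⟩, rfl⟩
    refine Submodule.subset_span ⟨ω, γ ∘ₗ (HB.map (ι a)).hom, ?_⟩
    exact (hfun hN hW (ι a) ω γ).symm
  have hVge : fw HdR HB hN ≤ V γ0 := by
    rw [← hsup, ← hσ]
    refine iSup_le fun a => ?_
    refine Submodule.span_le.2 ?_
    rintro r ⟨ω, rfl⟩
    refine Submodule.subset_span ⟨(HdR.map (ι a)).hom ω, ⟨a, ω, rfl⟩, ?_⟩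
    rw [LinearMap.id_apply, ← hfun hN hW (ι a) ω γ0, hγ0 a]
  have hVrow : ∀ γ, V γ ≤ row HdR HB hW γ := by
    intro γ
    refine Submodule.span_mono ?_
    rintro r ⟨ω, -, rfl⟩
    exact ⟨ω, rfl⟩
  obtain ⟨F, hF, hFγ⟩ := h3 hW (PerAlg HdR HB S) LinearMap.id Ω γ0
  refine ⟨F, hF, fun γ hγ => ?_⟩
  have h := hFγ γ hγ
  have e0 : V γ0 = fw HdR HB hN := le_antisymm (hVle γ0) hVge
  have e : V γ = fw HdR HB hN := by
    refine Submodule.eq_of_le_of_finrank_le (hVle γ) ?_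
    rw [← e0]
    exact h
  rw [← e]
  exact hVrow γ

end

end Pool.Agent.Lib.MP_ae0f86_nt.GC
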