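import Pool.Agent.Lib.MP_ae0f86_nt.GC.Stm

/-!
# MP_ae0f86_nt : piece [GC genz]
-/

set_option autoImplicit false

open CategoryTheory CategoryTheory.Limits Opposite MonoidalCategory Filter

universe w v u

namespace Pool.Agent.Lib.MP_ae0f86_nt.GC

noncomputable section

attribute [local instance] CategoryTheory.Abelian.hasFiniteBiproducts

variable {A : Type u} [Category.{v} A] [Abelian A] [MonoidalCategory A] [SymmetricCategory A]

/-- a nonzero object has a nonzero cycle -/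
private theorem genz_cycle {HB : A ⥤ ModuleCat.{0} ℚ} [FibreFunctor HB] {X : A}
    (hX : ¬ IsZero X) : ∃ τ : BDual HB X, τ ≠ 0 := by
  by_contra hcon
  push Not at hcon
  apply hX
  rw [IsZero.iff_id_eq_zero]
  apply HB.map_injective
  rw [HB.map_zero]
  ext y
  rw [HB.map_id]
  have h1 : ∀ φ : Module.Dual ℚ (HB.obj X), φ y = 0 := fun φ => by
    rw [hcon φ]; rfl
  exact (Module.forall_dual_apply_eq_zero_iff ℚ y).1 h1

private theorem genz_and {HB : A ⥤ ModuleCat.{0} ℚ} [FibreFunctor HB] {W : A}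
    {P Q : BDual HB W → Prop} (hP : ForGeneric HB W P) (hQ : ForGeneric HB W Q) :
    ForGeneric HB W (fun γ => P γ ∧ Q γ) := by
  obtain ⟨F, hF, h1⟩ := hP
  obtain ⟨G, hG, h2⟩ := hQ
  refine ⟨F * G, mul_ne_zero hF hG, fun γ h => ?_⟩
  rw [map_mul] at h
  exact ⟨h1 γ (left_ne_zero_of_mul h), h2 γ (right_ne_zero_of_mul h)⟩

private theorem genz_mono {HB : A ⥤ ModuleCat.{0} ℚ} [FibreFunctor HB] {W : A}
    {P Q : BDual HB W → Prop} (hP : ForGeneric HB W P) (h : ∀ γ, P γ → Q γ) :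
    ForGeneric HB W Q := by
  obtain ⟨F, hF, h1⟩ := hP
  exact ⟨F, hF, fun γ hγ => h γ (h1 γ hγ)⟩

private theorem genz_map_inj {R L : Type*} [AddCommGroup R] [Module QBar R] [AddCommGroup L]
    [Module QBar L] (f : R →ₗ[QBar] L) (hf : Function.Injective f) (V : Submodule QBar R) :
    Module.finrank QBar (V.map f) = Module.finrank QBar V :=
  (Submodule.equivMapOfInjective f hf V).finrank_eq.symm

theorem p_genz [RigidCategory A] {HdR : A ⥤ ModuleCat.{0} QBar} {HB : A ⥤ ModuleCat.{0} ℚ}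
    [FibreFunctor HdR] [FibreFunctor HB] (c : Comparison HdR HB) (h1 : S_sel.{u, 0})
    (h2 : S_row HdR HB) (_ : S_rev c) (h4 : S_sem.{u, v, u} HdR HB)
    (h5 : S_sem.{0, v, u} HdR HB) (h6 : S_nzd c) (h7 : S_algrel (A := A)) (h8 : S_arel HdR HB)
    (h9 : S_fwfin HdR HB) : S_genz c := by
  classical
  intro M N X W hN hX hW q hX0 hcop hq
  obtain ⟨hr1, hr2, hr3, hr4, -, -⟩ := h2
  obtain ⟨τ, hτ⟩ := genz_cycle (HB := HB) hX0
  obtain ⟨z, hz, hnz, hev⟩ := h6 M hX τ hτ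
  obtain ⟨ξ, rfl⟩ := (hr2 hX τ z).1 hz
  set z := asym HdR HB hX ξ τ with hzdef
  have hfin : Module.Finite QBar (fw HdR HB hN) := h9 hN
  have hfin' : Module.Finite QBar ↥(⨆ σ : BDual HB N, row HdR HB hN σ) := by
    rw [hr3 hN]; exact hfin
  obtain ⟨σ, hσ⟩ := h1 QBar (PerAlg HdR HB (Gen M)) (BDual HB N)
    (fun σ => row HdR HB hN σ) q (by rw [hr3 hN]; exact hq)
  rw [hr3 hN] at hσ
  obtain ⟨ι, π, hιπ⟩ := hcop
  have hNX : Gen M (N ⊗ X) := Gen.tensor hN hX
  set γ0 : BDual HB W := ∑ b, (tdual HB (σ b) τ) ∘ₗ (HB.map (π b)).hom with hγ0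
  have hpull : ∀ a, γ0 ∘ₗ (HB.map (ι a)).hom = tdual HB (σ a) τ := by
    intro a
    ext y
    rw [hγ0]
    simp only [LinearMap.comp_apply, LinearMap.sum_apply]
    rw [Finset.sum_eq_single a]
    · have := hιπ a a y
      rw [if_pos rfl] at this
      exact congrArg _ this
    · intro b _ hb
      have := hιπ a b y
      rw [if_neg (Ne.symm hb)] at this
      have h10 : (HB.map (π b)).hom ((HB.map (ι a)).hom y) = 0 := this
      rw [h10, map_zero]
    · intro h
      exact absurd (Finset.mem_univ a) h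
  have hkey : ∀ a (ω : HdR.obj N), z * asym HdR HB hN ω (σ a) =
      asym HdR HB hW ((HdR.map (ι a)).hom (FibreFunctor.mul N X ω ξ)) γ0 := by
    intro a ω
    rw [← (h8 (Gen M)).2.2.2.2.1 hNX hW (ι a), hpull a, mul_comm, hzdef,
      (h7 HdR HB (Gen M)).2.1 hN hX hNX]
  have hle : (fw HdR HB hN).map (LinearMap.mulLeft QBar z) ≤ row HdR HB hW γ0 := by
    rw [← hσ, Submodule.map_iSup]
    refine iSup_le fun a => ?_
    rintro _ ⟨x, hx, rfl⟩
    obtain ⟨ω, rfl⟩ := (hr2 hN (σ a) x).1 hx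
    rw [LinearMap.mulLeft_apply, hkey a ω]
    exact (hr2 hW γ0 _).2 ⟨_, rfl⟩
  have hf0 : Module.Finite QBar (row HdR HB hW γ0) := hr4 hW γ0
  have hinj : Function.Injective (LinearMap.mulLeft QBar z) := by
    rw [← LinearMap.ker_eq_bot, LinearMap.ker_eq_bot']
    intro x hx
    exact hnz x hx
  have hA : Module.finrank QBar (fw HdR HB hN) ≤ Module.finrank QBar (row HdR HB hW γ0) := by
    rw [← genz_map_inj _ hinj (fw HdR HB hN)]
    exact Submodule.finrank_mono hle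
  have hB : Module.finrank QBar ((fw HdR HB hN).map (c.evAlg (Gen M)).toLinearMap) ≤
      Module.finrank QBar ((row HdR HB hW γ0).map (c.evAlg (Gen M)).toLinearMap) := by
    have hinj2 : Function.Injective (LinearMap.mulLeft QBar (c.evAlg (Gen M) z)) := by
      rw [← LinearMap.ker_eq_bot, LinearMap.ker_eq_bot']
      intro x hx
      exact (mul_eq_zero.1 hx).resolve_left hev
    rw [← genz_map_inj _ hinj2]
    refine Submodule.finrank_mono ?_
    rintro _ ⟨_, ⟨x, hx, rfl⟩, rfl⟩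
    refine ⟨z * x, hle ⟨x, hx, rfl⟩, ?_⟩
    show c.evAlg (Gen M) (z * x) = c.evAlg (Gen M) z * c.evAlg (Gen M) x
    rw [map_mul]
  have e1 : ∀ γ : BDual HB W, Submodule.span QBar {r | ∃ ω ∈ (Set.univ : Set (HdR.obj W)),
      r = (LinearMap.id : PerAlg HdR HB (Gen M) →ₗ[QBar] _) (asym HdR HB hW ω γ)} =
      row HdR HB hW γ := by
    intro γ
    unfold row
    congr 1
    ext r
    simp
  have e2 : ∀ γ : BDual HB W, Submodule.span QBar {r | ∃ ω ∈ (Set.univ : Set (HdR.obj W)),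
      r = (c.evAlg (Gen M)).toLinearMap (asym HdR HB hW ω γ)} =
      (row HdR HB hW γ).map (c.evAlg (Gen M)).toLinearMap := by
    intro γ
    unfold row
    rw [Submodule.map_span]
    congr 1
    ext r
    constructor
    · rintro ⟨ω, -, rfl⟩
      exact ⟨_, ⟨ω, rfl⟩, rfl⟩
    · rintro ⟨_, ⟨ω, rfl⟩, rfl⟩
      exact ⟨ω, trivial, rfl⟩
  have g1 := h4 hW (PerAlg HdR HB (Gen M)) LinearMap.id Set.univ γ0
  have g2 := h5 hW ℂ (c.evAlg (Gen M)).toLinearMap Set.univ γ0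
  refine genz_mono (genz_and g1 g2) fun γ h => ⟨hA.trans ?_, hB.trans ?_⟩
  · rw [← e1 γ0, ← e1 γ]
    exact h.1
  · rw [← e2 γ0, ← e2 γ]
    exact h.2

end

end Pool.Agent.Lib.MP_ae0f86_nt.GC
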