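import Pool.Agent.Lib.MP_ae0f86_nt.GC.Stm

/-!
# MP_ae0f86_nt : piece `gfull`
-/

set_option autoImplicit false

open CategoryTheory CategoryTheory.Limits Opposite MonoidalCategory Filter

universe w v u

namespace Pool.Agent.Lib.MP_ae0f86_nt.GC

noncomputable section

attribute [local instance] CategoryTheory.Abelian.hasFiniteBiproducts

section Aux

variable {A : Type u} [Category.{v} A] [Abelian A] [MonoidalCategory A] [SymmetricCategory A]

theorem gfull_rank_tensor {F : Type} [Field F] (H : A ⥤ ModuleCat.{0} F) [FibreFunctor H]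
    (M N : A) : Module.finrank F (H.obj (M ⊗ N)) =
      Module.finrank F (H.obj M) * Module.finrank F (H.obj N) := by
  have e1 := (LinearEquiv.ofBijective _ (FibreFunctor.bij (H := H) M N)).finrank_eq
  rw [Module.finrank_tensorProduct] at e1
  exact e1.symm

theorem gfull_rank_one {F : Type} [Field F] (H : A ⥤ ModuleCat.{0} F) [FibreFunctor H] :
    Module.finrank F (H.obj (𝟙_ A)) = 1 := by
  have hb : Function.Bijective
      (LinearMap.toSpanSingleton F (H.obj (𝟙_ A)) (FibreFunctor.one (H := H))) :=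
    FibreFunctor.one_bij (H := H)
  have e3 := (LinearEquiv.ofBijective _ hb).finrank_eq
  rw [Module.finrank_self] at e3
  exact e3.symm

theorem gfull_rank_tpow {F : Type} [Field F] (H : A ⥤ ModuleCat.{0} F) [FibreFunctor H]
    (T : A) (n : ℕ) : Module.finrank F (H.obj (tpow T n)) = Module.finrank F (H.obj T) ^ n := by
  induction n with
  | zero => exact gfull_rank_one H
  | succ n ih =>
    have e := gfull_rank_tensor H (tpow T n) T
    rw [ih, ← pow_succ] at e
    exact e

theorem gfull_pos_iff {F : Type} [Field F] (H : A ⥤ ModuleCat.{0} F) [FibreFunctor H]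
    (M : A) : 0 < Module.finrank F (H.obj M) ↔ ¬ IsZero M := by
  constructor
  · intro h hz
    have h1 : IsZero (H.obj M) := H.map_isZero hz
    have h2 := ModuleCat.subsingleton_of_isZero h1
    have h3 : Module.finrank F (H.obj M) = 0 := Module.finrank_zero_of_subsingleton
    omega
  · intro h
    rw [Module.finrank_pos_iff]
    by_contra hn
    rw [not_nontrivial_iff_subsingleton] at hn
    apply h
    rw [IsZero.iff_id_eq_zero]
    apply H.map_injective
    ext x
    exact Subsingleton.elim _ _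

theorem gfull_copies_rank (HB : A ⥤ ModuleCat.{0} ℚ) [FibreFunctor HB] {N W : A}
    (h : HasCopies HB N W 1) :
    Module.finrank ℚ (HB.obj N) ≤ Module.finrank ℚ (HB.obj W) := by
  obtain ⟨ι, π, h⟩ := h
  apply LinearMap.finrank_le_finrank_of_injective (f := (HB.map (ι 0)).hom)
  intro x y hxy
  have h1 := h 0 0 x
  have h2 := h 0 0 y
  rw [if_pos rfl] at h1 h2
  rw [← h1, ← h2]
  exact congrArg (act HB (π 0)) hxy

end Aux

variable {A : Type u} [Category.{v} A] [Abelian A] [MonoidalCategory A] [SymmetricCategory A]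
  [RigidCategory A]
  {HdR : A ⥤ ModuleCat.{0} QBar} {HB : A ⥤ ModuleCat.{0} ℚ} [FibreFunctor HdR]
  [FibreFunctor HB]

private theorem gfull_one [Linear ℚ A] (c : Comparison HdR HB) (h5 : S_and HB) (h8 : S_cmp c)
    (h9 : S_fwdim (A := A)) (h10 : S_fwev (A := A)) (h11 : S_genclosed (A := A)) (T D W : A)
    (n : ℕ) (hT : Module.finrank ℚ (HB.obj T) = 1) (hD : ¬ IsZero D)
    (hW : HasCopies HB (tpow T n ⊗ D) W 1) :
    ForGeneric HB W (fun γ => ∀ m : ℕ,
      Nf HB (tpow T m) ≤ cycleExpected HB γ ∧ Pf c (tpow T m) ≤ cycleIndependent c γ) := by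
  have hW0 : 0 < Module.finrank ℚ (HB.obj W) := by
    refine lt_of_lt_of_le ?_ (gfull_copies_rank HB hW)
    rw [gfull_rank_tensor, gfull_rank_tpow, hT, one_pow, one_mul]
    exact (gfull_pos_iff HB D).2 hD
  refine h5.2.1 W _ _ (h5.2.2.2.2.1 W hW0) (fun γ hγ m => ?_)
  have hm : Module.finrank ℚ (HB.obj (tpow T m)) = 1 := by
    rw [gfull_rank_tpow, hT, one_pow]
  have i1 : Nf HB (tpow T m) ≤ 1 := by
    have := h8.2.2.2.2 (tpow T m)
    rwa [hm, one_pow] at this
  have i2 : 1 ≤ cycleIndependent c γ := h8.2.2.1 W γ hγ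
  have i3 : cycleIndependent c γ ≤ cycleExpected HB γ := h8.1 W γ
  have i4 : 0 < Nf HB (tpow T m) := by
    have hnt : Nontrivial (HB.obj (tpow T m)) := Module.nontrivial_of_finrank_pos (R := ℚ) (by omega)
    have hid : (1 : Module.End ℚ (HB.obj (tpow T m))) ∈ EndBetti HB (tpow T m) := by
      intro k U f x hx
      exact hx
    have : Nontrivial (EndBetti HB (tpow T m)) := ⟨⟨⟨1, hid⟩, 0, fun h => by
      have h' : (1 : Module.End ℚ (HB.obj (tpow T m))) = 0 := congrArg Subtype.val h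
      exact one_ne_zero h'⟩⟩
    exact Module.finrank_pos
  have e1 := h9 c (S := fun _ : A => True) h11.2.1 (W := tpow T m) trivial
  have e2 := h10 c (S := fun _ : A => True) (W := tpow T m) trivial
  have hfin : Module.Finite QBar (fw HdR HB (S := fun _ : A => True) (W := tpow T m) trivial) :=
    Module.finite_of_finrank_pos (by rw [e1]; exact i4)
  have i5 : Pf c (tpow T m) ≤ Nf HB (tpow T m) := by
    unfold Pf Nf
    rw [← e2, ← e1]
    exact Submodule.finrank_map_le _ _
  omega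

theorem p_gfull (c : Comparison HdR HB) (h1 : S_genz c) (h2 : S_tcop HB) (h3 : S_cop HB)
    (h4 : S_fwpow c) (h5 : S_and HB) (h6 : S_rk c) (h7 : S_rev c) (h8 : S_cmp c)
    (h9 : S_fwdim (A := A)) (h10 : S_fwev (A := A)) (h11 : S_genclosed (A := A)) :
    S_gfull c := by
  intro _ T D W n hT hD hW
  rcases Nat.eq_or_lt_of_le hT with hT1 | hT2
  · exact h5.2.1 W _ _ (gfull_one c h5 h8 h9 h10 h11 T D W n hT1.symm hD hW)
      (fun γ h m r _ _ => h m)
  · have key : ∀ r < n + 1, ForGeneric HB W (fun γ => ∀ m : ℕ, m + 2 * r = n →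
        Nat.multichoose ((Module.finrank ℚ (HB.obj T)) ^ 2) m ≤ Nat.choose r (r / 2) →
        Nf HB (tpow T m) ≤ cycleExpected HB γ ∧ Pf c (tpow T m) ≤ cycleIndependent c γ) := by
      intro r _
      by_cases hr : ∃ m : ℕ, m + 2 * r = n ∧
        Nat.multichoose ((Module.finrank ℚ (HB.obj T)) ^ 2) m ≤ Nat.choose r (r / 2)
      · obtain ⟨m, hm, hmc⟩ := hr
        obtain ⟨X, hX, hX0, hcop⟩ := h2 T hT2 m r
        rw [hm] at hcop
        have hcop1 := h3.2.2.1 _ _ D D _ 1 hcop (h3.1 D D (Iso.refl D))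
        have hcop2 := h3.2.1 _ _ _ 1 _
          (h3.1 (tpow T m ⊗ (X ⊗ D)) ((tpow T m ⊗ X) ⊗ D) (α_ (tpow T m) X D).symm) hcop1
        have hcop3 := h3.2.1 _ _ _ _ 1 hcop2 hW
        rw [one_mul, mul_one, mul_one] at hcop3
        have gT : Gen (T ⊞ (D ⊞ W)) T := Gen.sub (biprod.inl : T ⟶ T ⊞ (D ⊞ W)) Gen.base
        have gDW : Gen (T ⊞ (D ⊞ W)) (D ⊞ W) :=
          Gen.sub (biprod.inr : (D ⊞ W) ⟶ T ⊞ (D ⊞ W)) Gen.base
        have gD : Gen (T ⊞ (D ⊞ W)) D := Gen.sub (biprod.inl : D ⟶ D ⊞ W) gDW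
        have gW : Gen (T ⊞ (D ⊞ W)) W := Gen.sub (biprod.inr : W ⟶ D ⊞ W) gDW
        have gTm : Gen (T ⊞ (D ⊞ W)) (tpow T m) := h11.2.2.2 _ _ _ gT (genpow_mem T m)
        have gX : Gen (T ⊞ (D ⊞ W)) X := h11.2.2.2 _ _ _ gT hX
        have hXD : ¬ IsZero (X ⊗ D) := by
          rw [← gfull_pos_iff HB, gfull_rank_tensor]
          exact Nat.mul_pos ((gfull_pos_iff HB X).2 hX0) ((gfull_pos_iff HB D).2 hD)
        have hcl := h11.1 (T ⊞ (D ⊞ W))
        have hfw : Module.finrank QBar (fw HdR HB gTm) ≤ Nat.choose r (r / 2) :=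
          le_trans (h4.2.1 hcl gT m gTm) hmc
        refine h5.2.1 W _ _ (h1 (T ⊞ (D ⊞ W)) gTm (Gen.tensor gX gD) gW _ hXD hcop3 hfw)
          (fun γ h m' hm' _ => ?_)
        obtain rfl : m' = m := by omega
        have e1 := h9 c hcl gTm
        have e2 := h10 c gTm
        have e3 := h6 hcl gW γ
        have e4 := h7.2.2 gW γ
        rw [e3, e4]
        unfold Pf Nf
        rw [← e1, ← e2]
        exact h
      · exact h5.1 W _ (fun γ m hm hmc => absurd ⟨m, hm, hmc⟩ hr)
    refine h5.2.1 W _ _ (h5.2.2.2.1 W (n + 1) _ key) (fun γ h m r hmr hmc => ?_)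
    exact h r (by omega) m hmr hmc

end

end Pool.Agent.Lib.MP_ae0f86_nt.GC
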