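import Pool.Agent.Lib.MP_ae0f86_nt.GC.Stm
import Pool.Agent.Lib.MP_ae0f86_nt.D.Hilb

/-!
# MP_ae0f86_nt : [GC ghilb]

The argument of `D/Hilb.lean` does not use that `1 ∈ V`.
-/

set_option autoImplicit false

universe w v u

open CategoryTheory CategoryTheory.Limits Opposite MonoidalCategory Filter

namespace Pool.Agent.Lib.MP_ae0f86_nt.GC

theorem p_ghilb : S_ghilb.{w} := by
  intro K _ R _ _ V _ m hm n
  -- generators
  obtain ⟨x, hx⟩ : ∃ x : Fin (m + 1) → R, V = Submodule.span K (Set.range x) := by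
    let b := Module.finBasis K V
    refine ⟨fun i => if h : (i : ℕ) < Module.finrank K V then (b ⟨i, h⟩ : R) else 0, ?_⟩
    apply le_antisymm
    · intro y hy
      have h1 : (⟨y, hy⟩ : V) ∈ Submodule.span K (Set.range b) := by
        rw [b.span_eq]
        trivial
      have h2 : y ∈ (Submodule.span K (Set.range b)).map V.subtype := ⟨_, h1, rfl⟩
      rw [Submodule.map_span] at h2
      refine Submodule.span_mono ?_ h2
      rintro _ ⟨_, ⟨i, rfl⟩, rfl⟩
      refine ⟨⟨i, by omega⟩, ?_⟩
      simp only [i.2, dite_true]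
      rfl
    · rw [Submodule.span_le]
      rintro _ ⟨i, rfl⟩
      simp only
      split_ifs with h
      · exact (b ⟨i, h⟩).2
      · exact V.zero_mem
  rw [hilb_finrank x V hx, hilb_finrank x V hx]
  have := hilb_count (K := K) x n
  rw [add_assoc n 1 m, add_comm 1 m]
  exact this

end Pool.Agent.Lib.MP_ae0f86_nt.GC
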