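import Pool.Agent.Lib.MP_ae0f86_nt.GC.Stm

/-!
# MP_ae0f86_nt : piece [GC lift]

In the semisimple case, if the row of `γ` contains all symbols of `B` then every cycle for `B` is
the inverse image of `γ` under a morphism.
-/

set_option autoImplicit false

open CategoryTheory CategoryTheory.Limits Opposite MonoidalCategory Filter

universe w v u

namespace Pool.Agent.Lib.MP_ae0f86_nt.GC

noncomputable section

attribute [local instance] CategoryTheory.Abelian.hasFiniteBiproducts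

variable {A : Type u} [Category.{v} A] [Abelian A] [MonoidalCategory A] [SymmetricCategory A]
  [RigidCategory A]

variable {HdR : A ⥤ ModuleCat.{0} QBar} {HB : A ⥤ ModuleCat.{0} ℚ} [FibreFunctor HdR]
  [FibreFunctor HB]

/-- the linear form `s ∘ HB(fst) + γ ∘ HB(snd)` on `HB(B ⊞ W)` -/
private def lift_rho {B W : A} (s : BDual HB B) (γ : BDual HB W) : BDual HB (B ⊞ W) :=
  s ∘ₗ (HB.map (biprod.fst : B ⊞ W ⟶ B)).hom + γ ∘ₗ (HB.map (biprod.snd : B ⊞ W ⟶ W)).hom

omit [MonoidalCategory A] [SymmetricCategory A] [RigidCategory A] in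
private theorem lift_rho_apply {B W : A} (s : BDual HB B) (γ : BDual HB W)
    (x : HB.obj (B ⊞ W)) : lift_rho s γ x =
      s ((HB.map (biprod.fst : B ⊞ W ⟶ B)).hom x) +
        γ ((HB.map (biprod.snd : B ⊞ W ⟶ W)).hom x) := rfl

omit [Abelian A] [MonoidalCategory A] [SymmetricCategory A] [RigidCategory A] in
private theorem lift_comp {M N P : A} {K : Type} [Field K] (H : A ⥤ ModuleCat.{0} K)
    (f : M ⟶ N) (g : N ⟶ P) (x : H.obj M) :
    (H.map g).hom ((H.map f).hom x) = (H.map (f ≫ g)).hom x := by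
  rw [H.map_comp]
  rfl

omit [Abelian A] [MonoidalCategory A] [SymmetricCategory A] [RigidCategory A] in
private theorem lift_id {M : A} {K : Type} [Field K] (H : A ⥤ ModuleCat.{0} K)
    (x : H.obj M) : (H.map (𝟙 M)).hom x = x := by
  rw [H.map_id]
  rfl

omit [RigidCategory A] in
private theorem lift_zero {M N : A} {K : Type} [Field K] (H : A ⥤ ModuleCat.{0} K)
    [FibreFunctor H] (x : H.obj M) : (H.map (0 : M ⟶ N)).hom x = 0 := by
  rw [H.map_zero]
  rfl

omit [RigidCategory A] in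
private theorem lift_neg {M N : A} {K : Type} [Field K] (H : A ⥤ ModuleCat.{0} K)
    [FibreFunctor H] (f : M ⟶ N) (x : H.obj M) :
    (H.map (-f)).hom x = -(H.map f).hom x := by
  rw [H.map_neg]
  rfl

omit [RigidCategory A] in
private theorem lift_rho_inl {B W : A} (s : BDual HB B) (γ : BDual HB W) :
    lift_rho s γ ∘ₗ (HB.map (biprod.inl : B ⟶ B ⊞ W)).hom = s := by
  refine LinearMap.ext fun x => ?_
  rw [LinearMap.comp_apply, lift_rho_apply, lift_comp, lift_comp, biprod.inl_fst,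
    biprod.inl_snd, lift_id, lift_zero, map_zero, add_zero]

omit [RigidCategory A] in
private theorem lift_rho_inr {B W : A} (s : BDual HB B) (γ : BDual HB W) :
    lift_rho s γ ∘ₗ (HB.map (biprod.inr : W ⟶ B ⊞ W)).hom = γ := by
  refine LinearMap.ext fun x => ?_
  rw [LinearMap.comp_apply, lift_rho_apply, lift_comp, lift_comp, biprod.inr_fst,
    biprod.inr_snd, lift_id, lift_zero, map_zero, zero_add]

/-- one element of `HdR(B)` -/
private theorem lift_one (h1 : S_row HdR HB) (h2 : S_arel HdR HB) (h3 : S_vans (A := A))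
    (h4 : S_genclosed (A := A)) [Linear ℚ A] {T B W : A} (hB : Gen T B) (hW : Gen T W)
    (γ : BDual HB W) (hle : fw HdR HB hB ≤ row HdR HB hW γ) (s : BDual HB B)
    (ω : HdR.obj B) :
    ∃ (N : A) (i : N ⟶ B ⊞ W), Gen T N ∧ lift_rho s γ ∘ₗ (HB.map i).hom = 0 ∧
      ∃ ν : HdR.obj N, (HdR.map (i ≫ biprod.fst)).hom ν = ω := by
  have hX : Gen T (B ⊞ W) := Gen.sum hB hW
  have hmem : asym HdR HB hB ω s ∈ row HdR HB hW γ :=
    hle (Submodule.subset_span ⟨ω, s, rfl⟩)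
  obtain ⟨η, hη⟩ := (h1.2.1 hW γ _).1 hmem
  obtain ⟨a1, a2, -, -, a5, -, -⟩ := h2 (Gen T)
  have hz : asym HdR HB hX ((HdR.map (biprod.inl : B ⟶ B ⊞ W)).hom ω +
      (-1 : QBar) • (HdR.map (biprod.inr : W ⟶ B ⊞ W)).hom η) (lift_rho s γ) = 0 := by
    rw [a1 hX, a2 hX, ← a5 hB hX biprod.inl ω, ← a5 hW hX biprod.inr η, lift_rho_inl,
      lift_rho_inr, hη, neg_smul, one_smul]
    exact add_neg_cancel _
  obtain ⟨N, i, hi, ⟨ν, hν⟩, hρ⟩ := h3 HdR HB (Gen T) (h4.1 T) hX _ _ hz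
  refine ⟨N, i, Gen.sub i hX, hρ, ν, ?_⟩
  have hν' : (HdR.map i).hom ν = (HdR.map (biprod.inl : B ⟶ B ⊞ W)).hom ω +
      (-1 : QBar) • (HdR.map (biprod.inr : W ⟶ B ⊞ W)).hom η := hν
  rw [← lift_comp, hν', map_add, map_smul, lift_comp, lift_comp, biprod.inl_fst,
    biprod.inr_fst, lift_id, lift_zero, smul_zero, add_zero]

/-- finitely many elements of `HdR(B)` -/
private theorem lift_many (h1 : S_row HdR HB) (h2 : S_arel HdR HB) (h3 : S_vans (A := A))
    (h4 : S_genclosed (A := A)) [Linear ℚ A] {T B W : A} (hB : Gen T B) (hW : Gen T W)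
    (γ : BDual HB W) (hle : fw HdR HB hB ≤ row HdR HB hW γ) (s : BDual HB B)
    (l : List (HdR.obj B)) :
    ∃ (N : A) (i : N ⟶ B ⊞ W), Gen T N ∧ lift_rho s γ ∘ₗ (HB.map i).hom = 0 ∧
      ∀ ω ∈ l, ∃ ν : HdR.obj N, (HdR.map (i ≫ biprod.fst)).hom ν = ω := by
  induction l with
  | nil =>
    obtain ⟨N, i, hN, hi, -⟩ := lift_one h1 h2 h3 h4 hB hW γ hle s 0
    exact ⟨N, i, hN, hi, fun ω h => absurd h List.not_mem_nil⟩
  | cons ω l ih =>
    obtain ⟨N, i, hN, hi, hl⟩ := ih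
    obtain ⟨N', i', hN', hi', ν', hν'⟩ := lift_one h1 h2 h3 h4 hB hW γ hle s ω
    refine ⟨N ⊞ N', biprod.desc i i', Gen.sum hN hN', ?_, ?_⟩
    · refine LinearMap.ext fun x => ?_
      have e1 : (𝟙 (N ⊞ N')) = biprod.fst ≫ biprod.inl + biprod.snd ≫ biprod.inr :=
        biprod.total.symm
      have e2 : (biprod.desc i i' : N ⊞ N' ⟶ B ⊞ W) =
          biprod.fst ≫ i + biprod.snd ≫ i' := biprod.desc_eq
      rw [LinearMap.comp_apply, e2, HB.map_add]
      have e3 : (HB.map ((biprod.fst : N ⊞ N' ⟶ N) ≫ i) +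
          HB.map ((biprod.snd : N ⊞ N' ⟶ N') ≫ i')).hom x =
          (HB.map i).hom ((HB.map (biprod.fst : N ⊞ N' ⟶ N)).hom x) +
          (HB.map i').hom ((HB.map (biprod.snd : N ⊞ N' ⟶ N')).hom x) := by
        rw [lift_comp, lift_comp]
        rfl
      rw [e3, map_add]
      have e4 := LinearMap.congr_fun hi ((HB.map (biprod.fst : N ⊞ N' ⟶ N)).hom x)
      have e5 := LinearMap.congr_fun hi' ((HB.map (biprod.snd : N ⊞ N' ⟶ N')).hom x)
      rw [LinearMap.comp_apply] at e4 e5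
      rw [e4, e5]
      simp
    · intro ω' hω'
      rcases List.mem_cons.1 hω' with h | h
      · subst h
        refine ⟨(HdR.map (biprod.inr : N' ⟶ N ⊞ N')).hom ν', ?_⟩
        rw [lift_comp, ← Category.assoc, biprod.inr_desc]
        exact hν'
      · obtain ⟨ν, hν⟩ := hl ω' h
        refine ⟨(HdR.map (biprod.inl : N ⟶ N ⊞ N')).hom ν, ?_⟩
        rw [lift_comp, ← Category.assoc, biprod.inl_desc]
        exact hν

theorem p_lift (h1 : S_row HdR HB) (h2 : S_arel HdR HB) (h3 : S_vans (A := A))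
    (h4 : S_genclosed (A := A)) : S_lift HdR HB := by
  intro _ T hT B W hB hW γ hle s
  obtain ⟨l, hl⟩ : ∃ l : List (HdR.obj B), Submodule.span QBar {ω | ω ∈ l} = ⊤ := by
    obtain ⟨S, hS⟩ := (Module.Finite.fg_top : (⊤ : Submodule QBar (HdR.obj B)).FG)
    refine ⟨S.toList, ?_⟩
    rw [← hS]
    congr 1
    ext ω
    simp
  obtain ⟨N, i, hN, hi, hω⟩ := lift_many h1 h2 h3 h4 hB hW γ hle s l
  have hsurj : Function.Surjective (HdR.map (i ≫ biprod.fst)).hom := by
    rw [← LinearMap.range_eq_top, eq_top_iff, ← hl, Submodule.span_le]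
    intro ω h
    obtain ⟨ν, hν⟩ := hω ω h
    exact ⟨ν, hν⟩
  have hepi' : Epi (HdR.map (i ≫ biprod.fst)) := (ModuleCat.epi_iff_surjective _).2 hsurj
  have hepi : Epi (i ≫ biprod.fst) := HdR.epi_of_epi_map hepi'
  obtain ⟨r, hr⟩ := hT N (kernel (i ≫ biprod.fst)) (kernel.ι (i ≫ biprod.fst)) inferInstance hN
  have hk : kernel.ι (i ≫ biprod.fst) ≫ (𝟙 N - r ≫ kernel.ι (i ≫ biprod.fst)) = 0 := by
    rw [Preadditive.comp_sub, Category.comp_id, ← Category.assoc, hr, Category.id_comp, sub_self]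
  obtain ⟨h, hh⟩ : ∃ h : B ⟶ N, (i ≫ biprod.fst) ≫ h =
      𝟙 N - r ≫ kernel.ι (i ≫ biprod.fst) :=
    ⟨Abelian.epiDesc (i ≫ biprod.fst) _ hk, Abelian.comp_epiDesc _ _ hk⟩
  have hsec : h ≫ i ≫ biprod.fst = 𝟙 B := by
    rw [← cancel_epi (i ≫ biprod.fst), ← Category.assoc, hh, Preadditive.sub_comp,
      Category.assoc, kernel.condition, comp_zero, sub_zero, Category.id_comp, Category.comp_id]
  refine ⟨-(h ≫ i ≫ biprod.snd), ?_⟩
  refine LinearMap.ext fun y => ?_
  have e1 := LinearMap.congr_fun hi ((HB.map h).hom y)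
  rw [LinearMap.comp_apply, lift_rho_apply, lift_comp, lift_comp, lift_comp, lift_comp] at e1
  rw [hsec, lift_id] at e1
  change γ ((HB.map (-(h ≫ i ≫ biprod.snd))).hom y) = s y
  rw [lift_neg, map_neg]
  have e4 : (0 : BDual HB N) ((HB.map h).hom y) = 0 := rfl
  rw [e4] at e1
  linarith

end

end Pool.Agent.Lib.MP_ae0f86_nt.GC
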