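import Pool.Agent.Lib.MP_ae0f86_nt.GC.Stm

/-!
# MP_ae0f86_nt : piece [GC mch], two bounds for `multichoose`
-/

set_option autoImplicit false

namespace Pool.Agent.Lib.MP_ae0f86_nt.GC

private theorem mch_one (B j n : ℕ) (h : j + B ≤ n + 1) :
    Nat.multichoose B j ≤ Nat.choose n j := by
  rcases Nat.eq_zero_or_pos B with rfl | hB
  · cases j with
    | zero => simp
    | succ j => simp [Nat.multichoose_zero_succ]
  · rw [Nat.multichoose_eq]
    exact Nat.choose_le_choose _ (by omega)

private theorem mch_two (B : ℕ) : ∀ j : ℕ, Nat.multichoose (B + 1) j ≤ (j + 1) ^ B := by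
  induction B with
  | zero => intro j; simp
  | succ B ihB =>
    intro j
    induction j with
    | zero => simp
    | succ j ihj =>
      rw [Nat.multichoose_succ_succ]
      have h1 := ihB (j + 1)
      have h2 : (j + 1) ^ (B + 1) ≤ (j + 1 + 1) ^ B * (j + 1) := by
        rw [pow_succ]
        exact Nat.mul_le_mul_right _ (Nat.pow_le_pow_left (by omega) B)
      calc Nat.multichoose (B + 1) (j + 1) + Nat.multichoose (B + 1 + 1) j
          ≤ (j + 1 + 1) ^ B + (j + 1 + 1) ^ B * (j + 1) := Nat.add_le_add h1 (ihj.trans h2)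
        _ = (j + 1 + 1) ^ (B + 1) := by ring

private theorem mch_three (r : ℕ) : 2 ^ r ≤ (r + 1) * Nat.choose r (r / 2) := by
  calc 2 ^ r = ∑ i ∈ Finset.range (r + 1), Nat.choose r i := (Nat.sum_range_choose r).symm
    _ ≤ ∑ _i ∈ Finset.range (r + 1), Nat.choose r (r / 2) :=
      Finset.sum_le_sum fun i _ => Nat.choose_le_middle i r
    _ = (r + 1) * Nat.choose r (r / 2) := by simp

theorem p_mch : S_mch := ⟨mch_one, mch_two, mch_three⟩

end Pool.Agent.Lib.MP_ae0f86_nt.GC
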