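import Pool.Agent.Lib.MP_ae0f86_nt.GC.Stm

/-!
# MP_ae0f86_nt : piece [GC numa]
-/

set_option autoImplicit false

namespace Pool.Agent.Lib.MP_ae0f86_nt.GC

theorem numa_grow (N : ℕ → ℕ) (d : ℕ) (h : ∀ n, (n + 1) * N (n + 1) ≤ (n + 1 + d) * N n)
    (m j : ℕ) : (N (m + j) : ℝ) ≤ (1 + (d : ℝ) / ((m : ℝ) + 1)) ^ j * N m := by
  induction j with
  | zero => simp
  | succ j ih =>
    have h1 : (((m + j : ℕ) : ℝ) + 1) * N (m + j + 1) ≤ (((m + j : ℕ) : ℝ) + 1 + d) * N (m + j) := by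
      exact_mod_cast h (m + j)
    have hm : (0 : ℝ) < (m : ℝ) + 1 := by positivity
    have hmj : (0 : ℝ) < ((m + j : ℕ) : ℝ) + 1 := by positivity
    have hle : (m : ℝ) + 1 ≤ ((m + j : ℕ) : ℝ) + 1 := by
      push_cast
      have : (0 : ℝ) ≤ j := Nat.cast_nonneg j
      linarith
    have h2 : (N (m + j + 1) : ℝ) ≤ (1 + (d : ℝ) / (((m + j : ℕ) : ℝ) + 1)) * N (m + j) := by
      have e : (1 + (d : ℝ) / (((m + j : ℕ) : ℝ) + 1)) * N (m + j) =
          ((((m + j : ℕ) : ℝ) + 1 + d) * N (m + j)) / (((m + j : ℕ) : ℝ) + 1) := by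
        field_simp
      rw [e, le_div_iff₀ hmj]
      linarith
    have h3 : (d : ℝ) / (((m + j : ℕ) : ℝ) + 1) ≤ (d : ℝ) / ((m : ℝ) + 1) :=
      div_le_div_of_nonneg_left (Nat.cast_nonneg d) hm hle
    have h4 : (1 + (d : ℝ) / (((m + j : ℕ) : ℝ) + 1)) * N (m + j) ≤
        (1 + (d : ℝ) / ((m : ℝ) + 1)) * N (m + j) :=
      mul_le_mul_of_nonneg_right (by linarith) (Nat.cast_nonneg _)
    have h5 : (0 : ℝ) ≤ 1 + (d : ℝ) / ((m : ℝ) + 1) := by positivity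
    have h6 := mul_le_mul_of_nonneg_left ih h5
    calc (N (m + (j + 1)) : ℝ) = N (m + j + 1) := by rw [add_assoc]
      _ ≤ (1 + (d : ℝ) / ((m : ℝ) + 1)) * N (m + j) := h2.trans h4
      _ ≤ (1 + (d : ℝ) / ((m : ℝ) + 1)) * ((1 + (d : ℝ) / ((m : ℝ) + 1)) ^ j * N m) := h6
      _ = (1 + (d : ℝ) / ((m : ℝ) + 1)) ^ (j + 1) * N m := by ring

theorem numa_bern (x : ℝ) (hx : 0 ≤ x) (k : ℕ) : (1 + x) ^ k ≤ 1 + k * x * (1 + x) ^ k := by
  induction k with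
  | zero => simp
  | succ k ih =>
    have h0 : (0 : ℝ) ≤ (1 + x) ^ k := by positivity
    have h1 : (1 + x) ^ (k + 1) = (1 + x) ^ k + x * (1 + x) ^ k := by ring
    have h2 : (1 + x) ^ k ≤ (1 + x) ^ (k + 1) := by
      rw [h1]
      have := mul_nonneg hx h0
      linarith
    have h3 : ((k : ℝ) + 1) * x * (1 + x) ^ k ≤ ((k : ℝ) + 1) * x * (1 + x) ^ (k + 1) :=
      mul_le_mul_of_nonneg_left h2 (by positivity)
    push_cast
    calc (1 + x) ^ (k + 1) = (1 + x) ^ k + x * (1 + x) ^ k := h1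
      _ ≤ 1 + k * x * (1 + x) ^ k + x * (1 + x) ^ k := by linarith
      _ = 1 + ((k : ℝ) + 1) * x * (1 + x) ^ k := by ring
      _ ≤ 1 + ((k : ℝ) + 1) * x * (1 + x) ^ (k + 1) := by linarith

/-- `n + 1 ≤ (m + 1) (B' + 1)` for `m + B' = n + 1`, `B' ≥ 1`. -/
theorem numa_arith (n m B' : ℕ) (hB : 1 ≤ B') (h : m + B' = n + 1) :
    n + 1 ≤ (m + 1) * (B' + 1) := by
  rw [← h]
  have : m * B' ≥ m * 1 := Nat.mul_le_mul_left m hB
  nlinarith

theorem p_numa : S_numa := by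
  intro N P r g t B d hr htg hab hPN hgrow
  obtain ⟨a, b, ha, hab⟩ := hab
  -- the constants
  obtain ⟨B', hB'1, hBB'⟩ : ∃ B' : ℕ, 1 ≤ B' ∧ B ≤ B' := ⟨max B 1, le_max_right _ _, le_max_left _ _⟩
  have hc0 : (0 : ℝ) < (B' : ℝ) + 1 := by positivity
  have hc1 : (1 : ℝ) ≤ (B' : ℝ) + 1 := by
    have : (0 : ℝ) ≤ B' := Nat.cast_nonneg _
    linarith
  have hNpos : ∀ m, (0 : ℝ) < N m := by
    intro m
    have := (hab m).1
    have h2 : 0 < a * ((m : ℝ) + 1) ^ g := by positivity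
    linarith
  have hminpos : 0 < min a 1 := lt_min ha one_pos
  -- key bound
  have key : ∀ (n e : ℕ), e ≤ g → ∀ v : ℝ, 1 ≤ v →
      (∀ m : ℕ, m + B' = n + 1 → a * ((m : ℝ) + 1) ^ e ≤ v) →
      min a 1 / ((B' : ℝ) + 1) ^ g * ((n : ℝ) + 1) ^ e ≤ v := by
    intro n e he v hv1 hv
    have hcg : (0 : ℝ) < ((B' : ℝ) + 1) ^ g := by positivity
    have hce : (0 : ℝ) < ((B' : ℝ) + 1) ^ e := by positivity
    have hle : ((B' : ℝ) + 1) ^ e ≤ ((B' : ℝ) + 1) ^ g := pow_le_pow_right₀ hc1 he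
    have hstep : min a 1 / ((B' : ℝ) + 1) ^ g * ((n : ℝ) + 1) ^ e ≤
        min a 1 / ((B' : ℝ) + 1) ^ e * ((n : ℝ) + 1) ^ e :=
      mul_le_mul_of_nonneg_right (div_le_div_of_nonneg_left hminpos.le hce hle) (by positivity)
    refine hstep.trans ?_
    have hre : min a 1 / ((B' : ℝ) + 1) ^ e * ((n : ℝ) + 1) ^ e =
        min a 1 * (((n : ℝ) + 1) / ((B' : ℝ) + 1)) ^ e := by
      rw [div_pow]; ring
    rw [hre]
    by_cases hn : B' ≤ n + 1
    · obtain ⟨m, hm⟩ : ∃ m, m + B' = n + 1 := ⟨n + 1 - B', Nat.sub_add_cancel hn⟩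
      have h1 : ((n : ℝ) + 1) / ((B' : ℝ) + 1) ≤ (m : ℝ) + 1 := by
        rw [div_le_iff₀ hc0]
        exact_mod_cast numa_arith n m B' hB'1 hm
      have h2 : (((n : ℝ) + 1) / ((B' : ℝ) + 1)) ^ e ≤ ((m : ℝ) + 1) ^ e :=
        pow_le_pow_left₀ (by positivity) h1 e
      calc min a 1 * (((n : ℝ) + 1) / ((B' : ℝ) + 1)) ^ e
          ≤ a * ((m : ℝ) + 1) ^ e :=
            mul_le_mul (min_le_left _ _) h2 (by positivity) ha.le
        _ ≤ v := hv m hm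
    · have h1 : ((n : ℝ) + 1) / ((B' : ℝ) + 1) ≤ 1 := by
        rw [div_le_one hc0]
        have : (n : ℝ) + 1 < B' := by exact_mod_cast not_le.1 hn
        linarith
      have h2 : (((n : ℝ) + 1) / ((B' : ℝ) + 1)) ^ e ≤ 1 := pow_le_one₀ (by positivity) h1
      calc min a 1 * (((n : ℝ) + 1) / ((B' : ℝ) + 1)) ^ e ≤ 1 * 1 :=
            mul_le_mul (min_le_right _ _) h2 (by positivity) zero_le_one
        _ ≤ v := by linarith
  refine ⟨⟨min a 1 / ((B' : ℝ) + 1) ^ g, b, by positivity, ?_⟩, ?_⟩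
  · intro n ν ρ h1ρ hρν hνN hρP hm
    have h1ρ' : (1 : ℝ) ≤ ρ := by exact_mod_cast h1ρ
    have hρν' : (ρ : ℝ) ≤ ν := by exact_mod_cast hρν
    refine ⟨?_, ?_, ?_, ?_⟩
    · refine key n g le_rfl ν (h1ρ'.trans hρν') fun m hmB => ?_
      have h1 := (hab m).1
      have h2 : (N m : ℝ) ≤ ν := by
        exact_mod_cast (hm m (by omega)).1
      linarith
    · have h1 : (ν : ℝ) ≤ N n := by exact_mod_cast hνN
      exact h1.trans (hab n).2.1
    · refine key n t htg ρ h1ρ' fun m hmB => ?_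
      have h1 := (hab m).2.2.1
      have h2 : (P m : ℝ) ≤ ρ := by
        exact_mod_cast (hm m (by omega)).2
      linarith
    · have h1 : (ρ : ℝ) ≤ P n := by exact_mod_cast hρP
      exact h1.trans (hab n).2.2.2
  · rintro ⟨C, hC⟩
    obtain ⟨k, hk⟩ : ∃ k : ℕ, k + 1 = B' := ⟨B' - 1, Nat.sub_add_cancel hB'1⟩
    refine ⟨|C| + k * d * (1 + d) ^ k * ((B' : ℝ) + 1) + B', ?_⟩
    intro n ν ρ h1ρ hρν hνN hρP hm
    have h1ρ' : (1 : ℝ) ≤ ρ := by exact_mod_cast h1ρ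
    have hρν' : (ρ : ℝ) ≤ ν := by exact_mod_cast hρν
    have hν0 : (0 : ℝ) < ν := by linarith
    have hn0 : (0 : ℝ) < (n : ℝ) + 1 := by positivity
    have hr0 : (0 : ℝ) ≤ 1 / (r : ℝ) := by positivity
    have hD0 : (0 : ℝ) ≤ k * d * (1 + d) ^ k * ((B' : ℝ) + 1) := by positivity
    have hC0 : (0 : ℝ) ≤ |C| := abs_nonneg C
    by_cases hn : B' ≤ n + 1
    · obtain ⟨m, hmB⟩ : ∃ m, m + B' = n + 1 := ⟨n + 1 - B', Nat.sub_add_cancel hn⟩
      have hmn : n = m + k := by omega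
      have hm0 : (0 : ℝ) < (m : ℝ) + 1 := by positivity
      have hNm := hNpos m
      have hNn := hNpos n
      have h2 : (N m : ℝ) ≤ ν := by exact_mod_cast (hm m (by omega)).1
      have h3 : (ρ : ℝ) ≤ P n := by exact_mod_cast hρP
      have h4 : (P n : ℝ) ≤ N n := by exact_mod_cast hPN n
      have hx0 : (0 : ℝ) ≤ (d : ℝ) / ((m : ℝ) + 1) := by positivity
      have hxd : (d : ℝ) / ((m : ℝ) + 1) ≤ d := by
        rw [div_le_iff₀ hm0]
        have : (0 : ℝ) ≤ (d : ℝ) * m := by positivity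
        linarith
      -- N n / N m
      have h5 : (N n : ℝ) ≤ (1 + (d : ℝ) / ((m : ℝ) + 1)) ^ k * N m := by
        rw [hmn]; exact numa_grow N d hgrow m k
      have h6 : (N n : ℝ) / N m ≤ 1 + k * ((d : ℝ) / ((m : ℝ) + 1)) * (1 + d) ^ k := by
        rw [div_le_iff₀ hNm]
        have h7 := numa_bern _ hx0 k
        have h8 : (1 + (d : ℝ) / ((m : ℝ) + 1)) ^ k ≤ (1 + (d : ℝ)) ^ k :=
          pow_le_pow_left₀ (by positivity) (by linarith) k
        have h9 : (k : ℝ) * ((d : ℝ) / ((m : ℝ) + 1)) * (1 + (d : ℝ) / ((m : ℝ) + 1)) ^ k ≤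
            k * ((d : ℝ) / ((m : ℝ) + 1)) * (1 + d) ^ k :=
          mul_le_mul_of_nonneg_left h8 (by positivity)
        have h10 : (1 + (d : ℝ) / ((m : ℝ) + 1)) ^ k ≤
            1 + k * ((d : ℝ) / ((m : ℝ) + 1)) * (1 + d) ^ k := by linarith
        exact h5.trans (mul_le_mul_of_nonneg_right h10 hNm.le)
      have h11 : (ρ : ℝ) / ν ≤ (P n : ℝ) / N n * ((N n : ℝ) / N m) := by
        have e : (P n : ℝ) / N n * ((N n : ℝ) / N m) = (P n : ℝ) / N m := by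
          field_simp
        rw [e]
        exact div_le_div₀ (Nat.cast_nonneg _) h3 hNm h2
      have hq0 : (0 : ℝ) ≤ (P n : ℝ) / N n := by positivity
      have hq1 : (P n : ℝ) / N n ≤ 1 := by
        rw [div_le_one hNn]; exact h4
      have h12 : (P n : ℝ) / N n * ((N n : ℝ) / N m) ≤
          (P n : ℝ) / N n * (1 + k * ((d : ℝ) / ((m : ℝ) + 1)) * (1 + d) ^ k) :=
        mul_le_mul_of_nonneg_left h6 hq0
      have hy0 : (0 : ℝ) ≤ k * ((d : ℝ) / ((m : ℝ) + 1)) * (1 + d) ^ k := by positivity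
      have h13 : (P n : ℝ) / N n * (1 + k * ((d : ℝ) / ((m : ℝ) + 1)) * (1 + d) ^ k) ≤
          (P n : ℝ) / N n + k * ((d : ℝ) / ((m : ℝ) + 1)) * (1 + d) ^ k := by
        have := mul_le_mul_of_nonneg_right hq1 hy0
        linarith
      have h14 : (1 : ℝ) / ((m : ℝ) + 1) ≤ ((B' : ℝ) + 1) / ((n : ℝ) + 1) := by
        rw [div_le_div_iff₀ hm0 hn0]
        have : n + 1 ≤ (m + 1) * (B' + 1) := numa_arith n m B' hB'1 hmB
        have h15 : ((n : ℝ) + 1) ≤ ((m : ℝ) + 1) * ((B' : ℝ) + 1) := by exact_mod_cast this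
        linarith
      have h16 : k * ((d : ℝ) / ((m : ℝ) + 1)) * (1 + d) ^ k ≤
          k * d * (1 + d) ^ k * ((B' : ℝ) + 1) / ((n : ℝ) + 1) := by
        have e1 : (k : ℝ) * ((d : ℝ) / ((m : ℝ) + 1)) * (1 + d) ^ k =
            (k * d * (1 + d) ^ k) * (1 / ((m : ℝ) + 1)) := by ring
        have e2 : k * d * (1 + (d : ℝ)) ^ k * ((B' : ℝ) + 1) / ((n : ℝ) + 1) =
            (k * d * (1 + d) ^ k) * (((B' : ℝ) + 1) / ((n : ℝ) + 1)) := by ring
        rw [e1, e2]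
        exact mul_le_mul_of_nonneg_left h14 (by positivity)
      have h17 : C / ((n : ℝ) + 1) ≤ |C| / ((n : ℝ) + 1) :=
        div_le_div_of_nonneg_right (le_abs_self C) hn0.le
      have h18 : (0 : ℝ) ≤ (B' : ℝ) / ((n : ℝ) + 1) := by positivity
      have h19 := hC n
      rw [add_div, add_div]
      linarith
    · have h1 : (ρ : ℝ) / ν ≤ 1 := by
        rw [div_le_one hν0]; exact hρν'
      have h2 : (n : ℝ) + 1 ≤ B' := by
        have : (n : ℝ) + 1 < B' := by exact_mod_cast not_le.1 hn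
        linarith
      have h3 : (1 : ℝ) ≤ (|C| + k * d * (1 + d) ^ k * ((B' : ℝ) + 1) + B') / ((n : ℝ) + 1) := by
        rw [one_le_div hn0]
        linarith
      linarith

end Pool.Agent.Lib.MP_ae0f86_nt.GC
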