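import Pool.Agent.Lib.MP_ae0f86_nt.GC.Stm

/-!
# MP_ae0f86_nt, single generic cycles : `S_numb`

The choice of the exponents for the sequences.
-/

set_option autoImplicit false

open CategoryTheory CategoryTheory.Limits Opposite MonoidalCategory Filter

universe w v u

namespace Pool.Agent.Lib.MP_ae0f86_nt.GC

noncomputable section

attribute [local instance] CategoryTheory.Abelian.hasFiniteBiproducts

private theorem numb_log (n : ℕ) :
    ((Nat.log 2 (n + 2) + 1 : ℕ) : ℝ) ≤ 4 * Real.log ((n : ℝ) + 2) := by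
  have hl2 : (0.6931471803 : ℝ) < Real.log 2 := Real.log_two_gt_d9
  have hle : Real.log 2 ≤ Real.log ((n : ℝ) + 2) := by
    apply Real.log_le_log (by norm_num)
    have : (0 : ℝ) ≤ n := Nat.cast_nonneg n
    linarith
  have hp : (2 : ℕ) ^ (Nat.log 2 (n + 2)) ≤ n + 2 := Nat.pow_log_le_self 2 (by omega)
  have hp' : ((2 : ℝ)) ^ (Nat.log 2 (n + 2)) ≤ (n : ℝ) + 2 := by exact_mod_cast hp
  have h1 : (Nat.log 2 (n + 2) : ℝ) * Real.log 2 ≤ Real.log ((n : ℝ) + 2) := by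
    have h := Real.log_le_log (by positivity) hp'
    rwa [Real.log_pow] at h
  push_cast
  have h0 : (0 : ℝ) ≤ (Nat.log 2 (n + 2) : ℝ) := Nat.cast_nonneg _
  nlinarith

private theorem numb_pt (h1 : S_mch) (b n : ℕ) (hb : 1 ≤ b)
    (ht : 32 ≤ (n : ℝ) / ((b : ℝ) ^ 4 * Real.log ((n : ℝ) + 2))) :
    4 * (2 * b ^ 2 * (Nat.log 2 (n + 2) + 1)) ≤ n + 1 ∧
    Nat.multichoose (b ^ 2) (n + 1 - 2 * (2 * b ^ 2 * (Nat.log 2 (n + 2) + 1))) ≤
      Nat.choose (2 * b ^ 2 * (Nat.log 2 (n + 2) + 1))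
        ((2 * b ^ 2 * (Nat.log 2 (n + 2) + 1)) / 2) ∧
    (1 + ((b : ℝ) ^ 2) /
        (((n + 1 - 2 * (2 * b ^ 2 * (Nat.log 2 (n + 2) + 1)) : ℕ) : ℝ) + 1)) ^
        (2 * (2 * b ^ 2 * (Nat.log 2 (n + 2) + 1))) ≤
      Real.exp (32 / ((n : ℝ) / ((b : ℝ) ^ 4 * Real.log ((n : ℝ) + 2)))) ∧
    ((b : ℝ) ^ 2) / ((n : ℝ) + 1) ≤
      2 / ((n : ℝ) / ((b : ℝ) ^ 4 * Real.log ((n : ℝ) + 2))) := by
  have hl2 : (0.6931471803 : ℝ) < Real.log 2 := Real.log_two_gt_d9
  have hn0 : (0 : ℝ) ≤ n := Nat.cast_nonneg n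
  have hle : Real.log 2 ≤ Real.log ((n : ℝ) + 2) := by
    apply Real.log_le_log (by norm_num)
    linarith
  have hL := numb_log n
  set l : ℝ := Real.log ((n : ℝ) + 2) with hl
  have hl0 : 0 < l := by linarith
  have hb1 : (1 : ℝ) ≤ b := by exact_mod_cast hb
  have hb0 : (0 : ℝ) < b := by linarith
  have hb2 : (1 : ℝ) ≤ (b : ℝ) ^ 2 := by nlinarith
  have hb4 : (b : ℝ) ^ 2 ≤ (b : ℝ) ^ 4 := by nlinarith
  have hb40 : (0 : ℝ) < (b : ℝ) ^ 4 := by positivity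
  have hD : 0 < (b : ℝ) ^ 4 * l := by positivity
  set t : ℝ := (n : ℝ) / ((b : ℝ) ^ 4 * l) with htd
  have ht0 : 0 < t := by linarith
  have hnt : (n : ℝ) = t * ((b : ℝ) ^ 4 * l) := by
    rw [htd]; field_simp
  have hn1 : (0 : ℝ) < n := by rw [hnt]; positivity
  obtain ⟨h11, h12, h13⟩ := h1
  set L : ℕ := Nat.log 2 (n + 2) + 1 with hLd
  set s : ℕ := 2 * b ^ 2 * L with hs
  have hsR : (s : ℝ) = 2 * (b : ℝ) ^ 2 * (L : ℝ) := by rw [hs]; push_cast; ring
  have hs8 : (s : ℝ) ≤ 8 * ((b : ℝ) ^ 2 * l) := by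
    rw [hsR]
    have : (b : ℝ) ^ 2 * (L : ℝ) ≤ (b : ℝ) ^ 2 * (4 * l) :=
      mul_le_mul_of_nonneg_left hL (by positivity)
    nlinarith
  have hb24 : (b : ℝ) ^ 2 * l ≤ (b : ℝ) ^ 4 * l := mul_le_mul_of_nonneg_right hb4 hl0.le
  have h4 : 4 * s ≤ n + 1 := by
    have : (4 : ℝ) * (s : ℝ) ≤ (n : ℝ) + 1 := by
      have h5 : 32 * ((b : ℝ) ^ 4 * l) ≤ n := by
        rw [hnt]; exact mul_le_mul_of_nonneg_right ht hD.le
      linarith
    exact_mod_cast this
  refine ⟨h4, ?_, ?_, ?_⟩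
  · obtain ⟨c, hc⟩ : ∃ c, b ^ 2 = c + 1 := ⟨b ^ 2 - 1, by
      have : 1 ≤ b ^ 2 := Nat.one_le_pow _ _ (by omega)
      omega⟩
    have e1 : Nat.multichoose (b ^ 2) (n + 1 - 2 * s) ≤ (n + 2) ^ c := by
      rw [hc]
      refine (h12 c _).trans (Nat.pow_le_pow_left (by omega) c)
    have e2 : (n + 2) ^ (c + 1) ≤ 2 ^ s := by
      have e3 : n + 2 ≤ 2 ^ L := (Nat.lt_pow_succ_log_self (by norm_num) (n + 2)).le
      calc (n + 2) ^ (c + 1) ≤ (2 ^ L) ^ (c + 1) := Nat.pow_le_pow_left e3 _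
        _ = 2 ^ (L * (c + 1)) := by rw [← pow_mul]
        _ ≤ 2 ^ s := by
          apply Nat.pow_le_pow_right (by norm_num)
          rw [hs, hc]
          nlinarith
    have e4 := h13 s
    have e5 : (s + 1) * Nat.choose s (s / 2) ≤ (n + 2) * Nat.choose s (s / 2) :=
      Nat.mul_le_mul_right _ (by omega)
    have e6 : (n + 2) * (n + 2) ^ c ≤ (n + 2) * Nat.choose s (s / 2) := by
      calc (n + 2) * (n + 2) ^ c = (n + 2) ^ (c + 1) := by rw [pow_succ]; ring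
        _ ≤ _ := e2.trans (e4.trans e5)
    exact e1.trans (Nat.le_of_mul_le_mul_left e6 (by omega))
  · have hm : ((n + 1 - 2 * s : ℕ) : ℝ) = (n : ℝ) + 1 - 2 * (s : ℝ) := by
      rw [Nat.cast_sub (by omega)]
      push_cast
      ring
    have h4R : (4 : ℝ) * (s : ℝ) ≤ (n : ℝ) + 1 := by exact_mod_cast h4
    have hm1 : (n : ℝ) / 2 ≤ ((n + 1 - 2 * s : ℕ) : ℝ) + 1 := by rw [hm]; linarith
    set M : ℝ := ((n + 1 - 2 * s : ℕ) : ℝ) + 1 with hM
    have hM0 : 0 < M := by linarith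
    have hx0 : 0 ≤ (b : ℝ) ^ 2 / M := by positivity
    have hx : (b : ℝ) ^ 2 / M ≤ (b : ℝ) ^ 2 / ((n : ℝ) / 2) :=
      div_le_div_of_nonneg_left (by positivity) (by positivity) hm1
    have h6 : (1 + (b : ℝ) ^ 2 / M) ≤ Real.exp ((b : ℝ) ^ 2 / M) := by
      have := Real.add_one_le_exp ((b : ℝ) ^ 2 / M)
      linarith
    calc (1 + (b : ℝ) ^ 2 / M) ^ (2 * s) ≤ (Real.exp ((b : ℝ) ^ 2 / M)) ^ (2 * s) :=
          pow_le_pow_left₀ (by positivity) h6 _
      _ = Real.exp (((2 * s : ℕ) : ℝ) * ((b : ℝ) ^ 2 / M)) := by rw [Real.exp_nat_mul]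
      _ ≤ Real.exp (32 / t) := by
        apply Real.exp_le_exp.mpr
        push_cast
        have h7 : 2 * (s : ℝ) * ((b : ℝ) ^ 2 / M) ≤
            2 * (8 * ((b : ℝ) ^ 2 * l)) * ((b : ℝ) ^ 2 / ((n : ℝ) / 2)) := by
          apply mul_le_mul _ hx hx0 (by positivity)
          linarith
        refine h7.trans (le_of_eq ?_)
        have ht' : t ≠ 0 := ht0.ne'
        rw [hnt]
        field_simp
        ring
  · have h8 : (b : ℝ) ^ 2 / ((n : ℝ) + 1) ≤ (b : ℝ) ^ 4 / (n : ℝ) := by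
      apply div_le_div₀ (by positivity) hb4 hn1 (by linarith)
    refine h8.trans ?_
    have h9 : 2 / t = (b : ℝ) ^ 4 * (2 * l) / (n : ℝ) := by
      rw [htd]
      field_simp
    rw [h9]
    apply div_le_div_of_nonneg_right _ hn1.le
    nlinarith

theorem p_numb (h1 : S_mch) : S_numb := by
  intro b n hb ht
  set t : ℕ → ℝ := fun k => (n k : ℝ) / ((b k : ℝ) ^ 4 * Real.log ((n k : ℝ) + 2)) with htd
  set s : ℕ → ℕ := fun k => 2 * (b k) ^ 2 * (Nat.log 2 (n k + 2) + 1) with hs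
  have hev : ∀ᶠ k in atTop, 1 ≤ b k ∧ 32 ≤ t k := hb.and (ht.eventually_ge_atTop 32)
  have hinv : ∀ c : ℝ, Tendsto (fun k => c / t k) atTop (nhds 0) := fun c =>
    Tendsto.div_atTop tendsto_const_nhds ht
  refine ⟨fun k => n k + 1 - 2 * min (s k) ((n k + 1) / 2), fun k => min (s k) ((n k + 1) / 2),
    ?_, ?_, ?_, ?_⟩
  · intro k
    show n k + 1 - 2 * min (s k) ((n k + 1) / 2) + 2 * min (s k) ((n k + 1) / 2) = n k + 1
    have : min (s k) ((n k + 1) / 2) ≤ (n k + 1) / 2 := min_le_right _ _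
    omega
  · filter_upwards [hev] with k hk
    obtain ⟨a1, a2, -, -⟩ := numb_pt h1 (b k) (n k) hk.1 hk.2
    have hmin : min (s k) ((n k + 1) / 2) = s k := by
      apply min_eq_left
      have : 4 * s k ≤ n k + 1 := a1
      omega
    rw [hmin]
    exact a2
  · have hup : Tendsto (fun k => Real.exp (32 / t k)) atTop (nhds 1) := by
      have := (Real.continuous_exp.tendsto 0).comp (hinv 32)
      rw [Real.exp_zero] at this
      exact this
    apply tendsto_of_tendsto_of_tendsto_of_le_of_le' tendsto_const_nhds hup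
    · filter_upwards with k
      apply one_le_pow₀
      have : 0 ≤ ((b k : ℝ) ^ 2) /
          (((n k + 1 - 2 * min (s k) ((n k + 1) / 2) : ℕ) : ℝ) + 1) := by positivity
      linarith
    · filter_upwards [hev] with k hk
      obtain ⟨a1, -, a3, -⟩ := numb_pt h1 (b k) (n k) hk.1 hk.2
      have hmin : min (s k) ((n k + 1) / 2) = s k := by
        apply min_eq_left
        have : 4 * s k ≤ n k + 1 := a1
        omega
      rw [hmin]
      exact a3
  · have h0 : Tendsto (fun k => ((b k : ℝ) ^ 2) / ((n k : ℝ) + 1)) atTop (nhds 0) := by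
      apply tendsto_of_tendsto_of_tendsto_of_le_of_le' tendsto_const_nhds (hinv 2)
      · filter_upwards with k
        positivity
      · filter_upwards [hev] with k hk
        exact (numb_pt h1 (b k) (n k) hk.1 hk.2).2.2.2
    have := h0.const_add 1
    rwa [add_zero] at this

end

end Pool.Agent.Lib.MP_ae0f86_nt.GC
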