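import Pool.Agent.Lib.MP_ae0f86_nt.GC.Stm

/-!
# MP_ae0f86_nt : piece [GC nzd]
-/

set_option autoImplicit false

open CategoryTheory CategoryTheory.Limits Opposite MonoidalCategory Filter

universe w v u

namespace Pool.Agent.Lib.MP_ae0f86_nt.GC

noncomputable section

attribute [local instance] CategoryTheory.Abelian.hasFiniteBiproducts

/-- A subspace over an infinite field is not covered by finitely many subspaces which do not
contain it. -/
private theorem nzd_avoid {K : Type} [Field K] [Infinite K] {R : Type w} [AddCommGroup R]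
    [Module K R] (P : Submodule K R) {ι : Type} (T : Finset ι) (q : ι → Submodule K R)
    (h : ∀ c ∈ T, ∃ g ∈ P, g ∉ q c) : ∃ F ∈ P, ∀ c ∈ T, F ∉ q c := by
  classical
  induction T using Finset.induction_on with
  | empty => exact ⟨0, P.zero_mem, fun c hc => absurd hc (Finset.notMem_empty c)⟩
  | insert c T _ ih =>
    obtain ⟨F, hF, hFT⟩ := ih fun c' hc' => h c' (Finset.mem_insert_of_mem hc')
    obtain ⟨g, hg, hgc⟩ := h c (Finset.mem_insert_self c T)
    have hfin : ∀ c' ∈ insert c T, {a : K | F + a • g ∈ q c'}.Finite := by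
      intro c' hc'
      refine Set.Subsingleton.finite ?_
      intro a ha b hb
      have ha' : F + a • g ∈ q c' := ha
      have hb' : F + b • g ∈ q c' := hb
      have h1 : (a - b) • g ∈ q c' := by
        have := (q c').sub_mem ha' hb'
        rwa [add_sub_add_left_eq_sub, ← sub_smul] at this
      by_contra hne
      have h2 : g ∈ q c' := ((q c').smul_mem_iff (sub_ne_zero.2 hne)).1 h1
      have h3 : F ∈ q c' := by
        have := (q c').sub_mem ha' ((q c').smul_mem a h2)
        rwa [add_sub_cancel_right] at this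
      rcases Finset.mem_insert.1 hc' with rfl | h4
      · exact hgc h2
      · exact hFT c' h4 h3
    have hU : (⋃ c' ∈ insert c T, {a : K | F + a • g ∈ q c'}).Finite :=
      Set.Finite.biUnion (Finset.finite_toSet _) hfin
    obtain ⟨a, ha⟩ := hU.infinite_compl.nonempty
    refine ⟨F + a • g, P.add_mem hF (P.smul_mem a hg), fun c' hc' h0 => ?_⟩
    apply ha
    simp only [Set.mem_iUnion]
    exact ⟨c', hc', h0⟩

variable {A : Type u} [Category.{v} A] [Abelian A] [MonoidalCategory A] [SymmetricCategory A]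

private theorem nzd_asym {HdR : A ⥤ ModuleCat.{0} QBar} {HB : A ⥤ ModuleCat.{0} ℚ}
    [FibreFunctor HdR] [FibreFunctor HB] (c : Comparison HdR HB) (S : A → Prop) {N : A} (hN : S N)
    (ω : HdR.obj N) (σ : Module.Dual ℚ (HB.obj N)) :
    c.evAlg S (asym HdR HB hN ω σ) = c.per N ω σ :=
  MvPolynomial.aeval_X (R := QBar) (fun s : Symb HdR HB S => c.per s.N s.ω s.σ) ⟨N, hN, ω, σ⟩

/-- a nonzero cycle has a nonzero integral -/
private theorem nzd_val {HdR : A ⥤ ModuleCat.{0} QBar} {HB : A ⥤ ModuleCat.{0} ℚ}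
    [FibreFunctor HdR] [FibreFunctor HB] (c : Comparison HdR HB) {X : A} (τ : BDual HB X)
    (hτ : τ ≠ 0) : ∃ ω : HdR.obj X, c.per X ω τ ≠ 0 := by
  by_contra hcon
  push Not at hcon
  obtain ⟨y, hy⟩ : ∃ y, τ y ≠ 0 := by
    by_contra h
    push Not at h
    exact hτ (LinearMap.ext h)
  obtain ⟨t, ht⟩ := (c.bij X).2
    ((Algebra.linearMap ℚ ℂ) ∘ₗ (Module.Dual.eval ℚ (HB.obj X) y))
  have h1 : ∀ t, (LinearMap.liftBaseChange ℂ (c.per X) t) τ = 0 := by
    intro t
    induction t using TensorProduct.induction_on with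
    | zero => rw [map_zero]; rfl
    | tmul a m =>
      rw [LinearMap.liftBaseChange_tmul, LinearMap.smul_apply, hcon m, smul_zero]
    | add a b ha hb => rw [map_add, LinearMap.add_apply, ha, hb, add_zero]
  have h2 := h1 t
  rw [ht] at h2
  have h3 : (algebraMap ℚ ℂ) (τ y) = 0 := h2
  exact hy ((algebraMap ℚ ℂ).injective (by rw [h3, map_zero]))

theorem p_nzd [RigidCategory A] {HdR : A ⥤ ModuleCat.{0} QBar} {HB : A ⥤ ModuleCat.{0} ℚ}
    [FibreFunctor HdR] [FibreFunctor HB] (c : Comparison HdR HB) (h1 : S_row HdR HB)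
    (h2 : S_pdec HdR HB) (h3 : S_fintype HdR HB) (h4 : S_nullst.{u}) (h5 : S_decdom.{u})
    (h6 : S_pointbij HdR HB) (h7 : S_genclosed (A := A)) (_ : S_arel HdR HB) : S_nzd c := by
  intro M X hX τ hτ
  have : IsAlgClosed QBar := (algebraicClosure.isAlgClosure ℚ ℂ).isAlgClosed
  have : Infinite QBar := Infinite.of_injective (algebraMap ℚ QBar) (algebraMap ℚ QBar).injective
  have := h3 M
  have hD : DClosed (Gen M) := ⟨h7.1 M, fun h => Gen.dual h⟩
  obtain ⟨r, e, hdec⟩ := h2 M
  have hpt : ∀ i, ∃ x : PerAlg HdR HB (Gen M) →ₐ[QBar] QBar, x (e i) = 1 := by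
    intro i
    obtain ⟨hdom, -⟩ := h5 (PerAlg HdR HB (Gen M)) r e hdec i
    have hne : Ideal.span {1 - e i} ≠ ⊤ := by
      have := hdom.toNontrivial
      exact Ideal.Quotient.nontrivial_iff.mp inferInstance
    obtain ⟨m, hm, hle⟩ := Ideal.exists_le_maximal _ hne
    obtain ⟨x, hx⟩ := h4 QBar (PerAlg HdR HB (Gen M)) m
    have h6 : (1 - e i) ∈ RingHom.ker x := by
      rw [hx]
      exact hle (Ideal.subset_span rfl)
    have h7 : x (1 - e i) = 0 := h6
    rw [map_sub, map_one, sub_eq_zero] at h7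
    exact ⟨x, h7.symm⟩
  have hmem : ∀ ω : HdR.obj X, asym HdR HB hX ω τ ∈ row HdR HB hX τ := fun ω =>
    Submodule.subset_span ⟨ω, rfl⟩
  have hA : ∀ i, ∃ g ∈ row HdR HB hX τ, e i * g ≠ 0 := by
    intro i
    obtain ⟨x, hx⟩ := hpt i
    obtain ⟨y, hy⟩ : ∃ y, τ y ≠ 0 := by
      by_contra h
      push Not at h
      exact hτ (LinearMap.ext h)
    obtain ⟨ω, hω, -⟩ := h6 (Gen M) hD x hX
      ((Algebra.linearMap ℚ QBar) ∘ₗ (Module.Dual.eval ℚ (HB.obj X) y))
    refine ⟨_, hmem ω, fun h0 => ?_⟩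
    have h8 := congrArg x h0
    rw [map_mul, hx, one_mul, map_zero, hω τ] at h8
    have h9 : (algebraMap ℚ QBar) (τ y) = 0 := h8
    exact hy ((algebraMap ℚ QBar).injective (by rw [h9, map_zero]))
  obtain ⟨ω0, hω0⟩ := nzd_val c τ hτ
  obtain ⟨z, hz, hzT⟩ := nzd_avoid (row HdR HB hX τ) (Finset.univ : Finset (Option (Fin r)))
    (fun o => match o with
      | none => LinearMap.ker (c.evAlg (Gen M)).toLinearMap
      | some i => LinearMap.ker (LinearMap.mulLeft QBar (e i)))
    (by
      intro o _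
      cases o with
      | none =>
        refine ⟨_, hmem ω0, fun h => hω0 ?_⟩
        rw [← nzd_asym c (Gen M) hX]
        exact h
      | some i =>
        obtain ⟨g, hg, hne⟩ := hA i
        exact ⟨g, hg, fun h => hne h⟩)
  refine ⟨z, hz, fun x hx => ?_, fun h => hzT none (Finset.mem_univ _) h⟩
  have h8 : ∀ i, e i * x = 0 := by
    intro i
    have h9 : e i * (z * x) = 0 := by rw [hx, mul_zero]
    rcases hdec.dom i _ _ h9 with h | h
    · exact absurd h (fun h => hzT (some i) (Finset.mem_univ _) h)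
    · exact h
  rw [← one_mul x, ← hdec.sum, Finset.sum_mul]
  exact Finset.sum_eq_zero fun i _ => h8 i

end

end Pool.Agent.Lib.MP_ae0f86_nt.GC
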