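import Pool.Agent.Lib.MP_ae0f86_nt.GC.Stm

/-!
# MP_ae0f86_nt : Pascal's triangle for copies
-/

set_option autoImplicit false

open CategoryTheory CategoryTheory.Limits Opposite MonoidalCategory

universe w v u

namespace Pool.Agent.Lib.MP_ae0f86_nt.GC

noncomputable section

attribute [local instance] CategoryTheory.Abelian.hasFiniteBiproducts

variable {A : Type u} [Category.{v} A] [Abelian A] [MonoidalCategory A] [SymmetricCategory A]

omit [Abelian A] [MonoidalCategory A] [SymmetricCategory A] in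
private theorem pas_zero (HB : A ⥤ ModuleCat.{0} ℚ) (N W : A) : HasCopies HB N W 0 :=
  ⟨fun a => a.elim0, fun a => a.elim0, fun a => a.elim0⟩

omit [Abelian A] in
private def pas_iso (P Q R : A) : (P ⊗ R) ⊗ Q ≅ (P ⊗ Q) ⊗ R :=
  α_ P R Q ≪≫ ((Iso.refl P) ⊗ᵢ (β_ R Q)) ≪≫ (α_ P Q R).symm

theorem p_pas (HB : A ⥤ ModuleCat.{0} ℚ) [FibreFunctor HB] (h1 : S_cop HB) : S_pas HB := by
  obtain ⟨c1, c2, c3, c4, c5, c6⟩ := h1
  intro X B C hs
  have main : ∀ n i j : ℕ, i + j = n →
      HasCopies HB (tpow B i ⊗ tpow C j) (tpow X n) (Nat.choose n j) := by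
    intro n
    induction n with
    | zero =>
      intro i j hij
      obtain ⟨rfl, rfl⟩ : i = 0 ∧ j = 0 := by omega
      exact c1 _ _ (λ_ (𝟙_ A))
    | succ n ih =>
      have hB : ∀ i j : ℕ, i + j = n →
          HasCopies HB (tpow B (i + 1) ⊗ tpow C j) (tpow X n ⊗ B) (Nat.choose n j) := by
        intro i j hij
        have h2 := c3 _ _ _ _ _ _ (ih i j hij) (c1 B B (Iso.refl B))
        have h3 := c1 (tpow B (i + 1) ⊗ tpow C j) ((tpow B i ⊗ tpow C j) ⊗ B)
          (pas_iso (tpow B i) B (tpow C j)).symm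
        have h4 := c2 _ _ _ _ _ h3 h2
        rwa [Nat.mul_one, Nat.one_mul] at h4
      have hC : ∀ i j : ℕ, i + j = n →
          HasCopies HB (tpow B i ⊗ tpow C (j + 1)) (tpow X n ⊗ C) (Nat.choose n j) := by
        intro i j hij
        have h2 := c3 _ _ _ _ _ _ (ih i j hij) (c1 C C (Iso.refl C))
        have h3 := c1 (tpow B i ⊗ tpow C (j + 1)) ((tpow B i ⊗ tpow C j) ⊗ C)
          (α_ (tpow B i) (tpow C j) C).symm
        have h4 := c2 _ _ _ _ _ h3 h2
        rwa [Nat.mul_one, Nat.one_mul] at h4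
      have hsp : Splits HB (tpow X (n + 1)) (tpow X n ⊗ B) (tpow X n ⊗ C) :=
        c6 (tpow X n) X B C hs
      intro i j hij
      rcases i with _ | i
      · obtain rfl : j = n + 1 := by omega
        have h5 := c5 _ _ _ _ _ _ hsp (pas_zero HB _ _) (hC 0 n (by omega))
        have e : 0 + Nat.choose n n = Nat.choose (n + 1) (n + 1) := by simp
        rw [← e]
        exact h5
      · rcases j with _ | j
        · have h5 := c5 _ _ _ _ _ _ hsp (hB i 0 (by omega)) (pas_zero HB _ _)
          have e : Nat.choose n 0 + 0 = Nat.choose (n + 1) 0 := by simp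
          rw [← e]
          exact h5
        · have h5 := c5 _ _ _ _ _ _ hsp (hB i (j + 1) (by omega)) (hC (i + 1) j (by omega))
          have e : Nat.choose n (j + 1) + Nat.choose n j = Nat.choose (n + 1) (j + 1) := by
            rw [Nat.choose_succ_succ' n j]
            exact Nat.add_comm _ _
          rw [← e]
          exact h5
  intro i j
  exact main (i + j) i j rfl

end

end Pool.Agent.Lib.MP_ae0f86_nt.GC
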