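import Pool.Agent.Lib.MP_ae0f86_nt.GC.Stm

set_option autoImplicit false

/-!
# MP_ae0f86_nt, piece GC pow: the dimension of a power of a subspace
-/

universe w v u

namespace Pool.Agent.Lib.MP_ae0f86_nt.GC

noncomputable section

private theorem pow_exists_fun {K : Type} [Field K] {R : Type w} [CommRing R] [Algebra K R]
    (V : Submodule K R) [Module.Finite K V] (m : ℕ) (h : Module.finrank K V ≤ m) :
    ∃ v : Fin m → R, V ≤ Submodule.span K (Set.range v) := by
  classical
  let b := Module.finBasis K V
  refine ⟨fun i => if hi : (i : ℕ) < Module.finrank K V then (b ⟨i, hi⟩ : R) else 0, ?_⟩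
  intro x hx
  have h1 : x = ∑ i, b.repr ⟨x, hx⟩ i • (b i : R) := by
    have h2 := congrArg (V.subtype) (b.sum_repr ⟨x, hx⟩)
    rw [map_sum] at h2
    simp only [map_smul, Submodule.subtype_apply] at h2
    exact h2.symm
  rw [h1]
  refine Submodule.sum_mem _ fun i _ => Submodule.smul_mem _ _ (Submodule.subset_span ?_)
  refine ⟨⟨i, i.2.trans_le h⟩, ?_⟩
  dsimp only
  rw [dif_pos i.2]

private theorem pow_le_span {K : Type} [Field K] {R : Type w} [CommRing R] [Algebra K R]
    (V : Submodule K R) {m : ℕ} (v : Fin m → R) (hv : V ≤ Submodule.span K (Set.range v)) (j : ℕ) :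
    V ^ j ≤ Submodule.span K
      (Set.range fun s : Sym (Fin m) j => ((s : Multiset (Fin m)).map v).prod) := by
  induction j with
  | zero =>
    rw [pow_zero, Submodule.one_eq_span]
    refine Submodule.span_mono ?_
    intro x hx
    rw [Set.mem_singleton_iff] at hx
    subst hx
    exact ⟨Sym.nil, by simp⟩
  | succ j ih =>
    rw [pow_succ]
    refine (mul_le_mul' ih hv).trans ?_
    rw [Submodule.span_mul_span]
    refine Submodule.span_mono ?_
    rintro _ ⟨_, ⟨s, rfl⟩, _, ⟨i, rfl⟩, rfl⟩
    refine ⟨Sym.cons i s, ?_⟩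
    dsimp only
    rw [Sym.coe_cons, Multiset.map_cons, Multiset.prod_cons, mul_comm]

/-- [GC pow] the dimension of a power of a subspace -/
theorem p_pow : S_pow.{w} := by
  classical
  intro K _ R _ _ V _ m j h
  obtain ⟨v, hv⟩ := pow_exists_fun V m h
  have h1 := pow_le_span V v hv j
  have h2 : Module.Finite K (Submodule.span K
      (Set.range fun s : Sym (Fin m) j => ((s : Multiset (Fin m)).map v).prod)) :=
    Module.Finite.span_of_finite K (Set.finite_range _)
  have h3 := finrank_range_le_card (R := K)
    (fun s : Sym (Fin m) j => ((s : Multiset (Fin m)).map v).prod)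
  calc Module.finrank K ↥(V ^ j) ≤ _ := Submodule.finrank_mono h1
    _ ≤ Fintype.card (Sym (Fin m) j) := h3
    _ = Nat.multichoose m j := by rw [Sym.card_sym_eq_multichoose, Fintype.card_fin]

end

end Pool.Agent.Lib.MP_ae0f86_nt.GC
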