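import Pool.Agent.Lib.MP_ae0f86_nt.GC.Stm
import Pool.Agent.Lib.MP_ae0f86_nt.D.Law

/-!
# MP_ae0f86_nt : [GC rat]
-/

open CategoryTheory CategoryTheory.Limits Opposite MonoidalCategory Filter

universe w v u

namespace Pool.Agent.Lib.MP_ae0f86_nt.GC

noncomputable section

attribute [local instance] CategoryTheory.Abelian.hasFiniteBiproducts

variable {A : Type u} [Category.{v} A] [Abelian A] [MonoidalCategory A] [SymmetricCategory A]
  [RigidCategory A] {HdR : A ⥤ ModuleCat.{0} QBar} {HB : A ⥤ ModuleCat.{0} ℚ}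
  [FibreFunctor HdR] [FibreFunctor HB]

theorem p_rat (c : Comparison HdR HB) (h1 : S_rperm HdR HB) (h2 : S_pdec HdR HB) (h3 : S_dims c)
    (h4 : S_comps.{u}) (h5 : S_cut.{u}) (h6 : S_evcut.{u}) (h7 : S_injdim.{u}) (h8 : S_rk c)
    (h9 : S_rev c) (h10 : S_row HdR HB) (h11 : ∀ M : A, Algebra.FiniteType QBar (PerAlg HdR HB (Gen M)))
    (h12 : S_genclosed (A := A)) : S_rat c := by
  intro _ M hdim W hW γ
  obtain ⟨r, e, hdec⟩ := h2 M
  obtain ⟨hr, g, t, hg, hgi, ht, -, htr⟩ := h3 M r e hdec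
  have htg : t = g := by
    rw [DimFormula, hg, htr] at hdim
    simp only [Cardinal.toENat_nat] at hdim
    exact_mod_cast hdim.symm
  have := h11 M
  obtain ⟨⟨i0, hi0⟩, hev⟩ := h6 QBar _ r e hdec ℂ (c.evAlg (Gen M))
  obtain ⟨-, hinj⟩ := h7 QBar _ r e hdec ℂ (c.evAlg (Gen M)) i0 hi0
  have hinj' := hinj (by rw [ht, (hgi i0).1, htg])
  have hF : Module.Finite QBar (row HdR HB hW γ) := h10.2.2.2.1 hW γ
  have h13 := (h5 QBar _ r e hdec).1 (row HdR HB hW γ)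
  rw [comp_ind hdec h5 (fun i j => by
    obtain ⟨τ, h14, h15⟩ := h1 M r e hdec i j
    exact ⟨τ, h14, h15 hW γ⟩) i0, ← (hev i0 hi0 (row HdR HB hW γ)).2 hinj',
    ← h9.2.2 hW γ, ← h8 (h12.1 M) hW γ] at h13
  have h16 : ncomp HdR HB M = r := (h4 _ r e hdec).2.1
  rw [h16]
  exact h13

end

end Pool.Agent.Lib.MP_ae0f86_nt.GC
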