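import Pool.Agent.Lib.MP_ae0f86_nt.GC.Stm

/-!
# MP_ae0f86_nt : piece `[GC rev]`, the evaluation of a row
-/

set_option autoImplicit false

open CategoryTheory CategoryTheory.Limits Opposite MonoidalCategory Filter

universe w v u

namespace Pool.Agent.Lib.MP_ae0f86_nt.GC

noncomputable section

attribute [local instance] CategoryTheory.Abelian.hasFiniteBiproducts

variable {A : Type u} [Category.{v} A] [Abelian A] [MonoidalCategory A] [SymmetricCategory A]
  {HdR : A ⥤ ModuleCat.{0} QBar} {HB : A ⥤ ModuleCat.{0} ℚ} [FibreFunctor HdR]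
  [FibreFunctor HB]

private theorem rev_asym (c : Comparison HdR HB) (S : A → Prop) {N : A} (hN : S N)
    (ω : HdR.obj N) (σ : Module.Dual ℚ (HB.obj N)) :
    c.evAlg S (asym HdR HB hN ω σ) = c.per N ω σ :=
  MvPolynomial.aeval_X (R := QBar) (fun s : Symb HdR HB S => c.per s.N s.ω s.σ) ⟨N, hN, ω, σ⟩

theorem p_rev (c : Comparison HdR HB) (h1 : S_row HdR HB) (_ : S_arel HdR HB) : S_rev c := by
  have key : ∀ {S : A → Prop} {W : A} (hW : S W) (γ : BDual HB W),
      (row HdR HB hW γ).map (c.evAlg S).toLinearMap =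
        Submodule.span QBar {z : ℂ | ∃ ω : HdR.obj W, c.val ω γ = z} := by
    intro S W hW γ
    unfold row
    rw [Submodule.map_span]
    congr 1
    ext z
    constructor
    · rintro ⟨r, ⟨ω, rfl⟩, rfl⟩
      exact ⟨ω, (rev_asym c S hW ω γ).symm⟩
    · rintro ⟨ω, rfl⟩
      exact ⟨asym HdR HB hW ω γ, ⟨ω, rfl⟩, rev_asym c S hW ω γ⟩
  refine ⟨fun hW γ => key hW γ, ?_, ?_⟩
  · intro S W hW γ z
    constructor
    · rintro ⟨x, hx, rfl⟩
      obtain ⟨ω, rfl⟩ := (h1.2.1 hW γ x).1 hx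
      exact ⟨ω, (rev_asym c S hW ω γ).symm⟩
    · rintro ⟨ω, rfl⟩
      exact ⟨asym HdR HB hW ω γ, (h1.2.1 hW γ _).2 ⟨ω, rfl⟩, rev_asym c S hW ω γ⟩
  · intro S W hW γ
    rw [key hW γ]
    rfl

end

end Pool.Agent.Lib.MP_ae0f86_nt.GC
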