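import Pool.Agent.Lib.MP_ae0f86_nt.GC.Stm

/-!
# MP_ae0f86_nt : piece [GC row], elementary properties of rows
-/

set_option autoImplicit false

open CategoryTheory CategoryTheory.Limits Opposite MonoidalCategory Filter

universe w v u

namespace Pool.Agent.Lib.MP_ae0f86_nt.GC

noncomputable section

attribute [local instance] CategoryTheory.Abelian.hasFiniteBiproducts

variable {A : Type u} [Category.{v} A] [Abelian A] [MonoidalCategory A] [SymmetricCategory A]
  {K : Type} [Field K] (H : A ⥤ ModuleCat.{0} K) (HB : A ⥤ ModuleCat.{0} ℚ)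
  [FibreFunctor H] [FibreFunctor HB]

/-- the linear map `ω ↦ asym W ω γ` -/
private def rowL (h1 : S_arel H HB) {S : A → Prop} {W : A} (hW : S W)
    (γ : Module.Dual ℚ (HB.obj W)) : H.obj W →ₗ[K] PerAlg H HB S where
  toFun ω := asym H HB hW ω γ
  map_add' ω ω' := (h1 S).1 hW ω ω' γ
  map_smul' a ω := (h1 S).2.1 hW a ω γ

private theorem row_eq_range (h1 : S_arel H HB) {S : A → Prop} {W : A} (hW : S W)
    (γ : Module.Dual ℚ (HB.obj W)) : row H HB hW γ = LinearMap.range (rowL H HB h1 hW γ) := by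
  apply le_antisymm
  · unfold row
    rw [Submodule.span_le]
    rintro r ⟨ω, rfl⟩
    exact ⟨ω, rfl⟩
  · rintro r ⟨ω, rfl⟩
    exact Submodule.subset_span ⟨ω, rfl⟩

theorem p_row (h1 : S_arel H HB) : S_row H HB := by
  have hmem : ∀ {S : A → Prop} {W : A} (hW : S W) (γ : Module.Dual ℚ (HB.obj W))
      (x : PerAlg H HB S), x ∈ row H HB hW γ ↔ ∃ ω, x = asym H HB hW ω γ := by
    intro S W hW γ x
    rw [row_eq_range H HB h1 hW γ]
    constructor
    · rintro ⟨ω, rfl⟩
      exact ⟨ω, rfl⟩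
    · rintro ⟨ω, rfl⟩
      exact ⟨ω, rfl⟩
  have hle : ∀ {S : A → Prop} {W : A} (hW : S W) (γ : Module.Dual ℚ (HB.obj W)),
      row H HB hW γ ≤ fw H HB hW := by
    intro S W hW γ x hx
    obtain ⟨ω, rfl⟩ := (hmem hW γ x).1 hx
    exact Submodule.subset_span ⟨ω, γ, rfl⟩
  have hnat : ∀ {S : A → Prop} {N N' : A} (hN : S N) (hN' : S N') (f : N ⟶ N')
      (γ' : Module.Dual ℚ (HB.obj N')),
      row H HB hN (γ' ∘ₗ (HB.map f).hom) ≤ row H HB hN' γ' := by
    intro S N N' hN hN' f γ' x hx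
    obtain ⟨ω, rfl⟩ := (hmem hN _ x).1 hx
    rw [(h1 S).2.2.2.2.1 hN hN' f ω γ']
    exact (hmem hN' γ' _).2 ⟨_, rfl⟩
  refine ⟨hle, hmem, ?_, ?_, hnat, ?_⟩
  · intro S W hW
    apply le_antisymm
    · exact iSup_le fun γ => hle hW γ
    · unfold fw
      rw [Submodule.span_le]
      rintro r ⟨ω, σ, rfl⟩
      exact (le_iSup (fun γ => row H HB hW γ) σ) ((hmem hW σ _).2 ⟨ω, rfl⟩)
  · intro S W hW γ
    have hfin : Module.Finite K (H.obj W) := FibreFunctor.finite W
    rw [row_eq_range H HB h1 hW γ]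
    infer_instance
  · intro S N N' hN hN' f γ' hf
    apply le_antisymm (hnat hN hN' f γ')
    intro x hx
    obtain ⟨ω', rfl⟩ := (hmem hN' γ' x).1 hx
    have hps : Function.Surjective (H.map f).hom := by
      have : Epi (H.map f) := inferInstance
      exact (ModuleCat.epi_iff_surjective _).1 this
    obtain ⟨ω, rfl⟩ := hps ω'
    rw [← (h1 S).2.2.2.2.1 hN hN' f ω γ']
    exact (hmem hN _ _).2 ⟨_, rfl⟩

end

end Pool.Agent.Lib.MP_ae0f86_nt.GC
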