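import Pool.Agent.Lib.MP_ae0f86_nt.GC.Stm

/-!
# MP_ae0f86_nt : [GC sel] a sum of subspaces of dimension at most `q` is the sum of `q` of them
-/

set_option autoImplicit false

universe w v u

namespace Pool.Agent.Lib.MP_ae0f86_nt.GC

theorem sel_cons_le {K : Type} [Field K] {R : Type w} [AddCommGroup R] [Module K R]
    {E : Type v} (V : E → Submodule K R) {p : ℕ} (e0 : E) (e : Fin p → E) :
    V e0 ⊔ ⨆ a, V (e a) ≤ ⨆ a, V ((Fin.cons e0 e : Fin (p + 1) → E) a) := by
  refine sup_le ?_ (iSup_le fun a => ?_)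
  · exact le_iSup (fun a => V ((Fin.cons e0 e : Fin (p + 1) → E) a)) 0
  · exact le_iSup (fun a => V ((Fin.cons e0 e : Fin (p + 1) → E) a)) a.succ

theorem sel_aux (K : Type) [Field K] (R : Type w) [AddCommGroup R] [Module K R]
    (E : Type v) [Nonempty E] (V : E → Submodule K R) [Module.Finite K ↥(⨆ e, V e)] (p : ℕ) :
    ∃ e : Fin p → E, ⨆ a, V (e a) = ⨆ e, V e ∨ p ≤ Module.finrank K ↥(⨆ a, V (e a)) := by
  induction p with
  | zero => exact ⟨Fin.elim0, Or.inr (Nat.zero_le _)⟩
  | succ p ih =>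
    obtain ⟨e, h⟩ := ih
    by_cases h1 : ⨆ a, V (e a) = ⨆ e, V e
    · obtain ⟨e0⟩ := ‹Nonempty E›
      refine ⟨Fin.cons e0 e, Or.inl (le_antisymm (iSup_le fun a => le_iSup V _) ?_)⟩
      rw [← h1]
      exact le_trans le_sup_right (sel_cons_le V e0 e)
    · have h2 := h.resolve_left h1
      have h3 : ∃ e0, ¬ V e0 ≤ ⨆ a, V (e a) := by
        by_contra hcon
        apply h1
        refine le_antisymm (iSup_le fun a => le_iSup V (e a)) (iSup_le fun e0 => ?_)
        by_contra h4
        exact hcon ⟨e0, h4⟩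
      obtain ⟨e0, he0⟩ := h3
      refine ⟨Fin.cons e0 e, Or.inr ?_⟩
      have h4 : ⨆ a, V (e a) < ⨆ a, V ((Fin.cons e0 e : Fin (p + 1) → E) a) := by
        refine lt_of_le_of_ne (le_trans le_sup_right (sel_cons_le V e0 e)) ?_
        intro h5
        apply he0
        rw [h5]
        exact le_trans le_sup_left (sel_cons_le V e0 e)
      have h6 : Module.Finite K ↥(⨆ a, V ((Fin.cons e0 e : Fin (p + 1) → E) a)) :=
        Submodule.finiteDimensional_of_le (iSup_le fun a => le_iSup V _)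
      have h7 := Submodule.finrank_lt_finrank_of_lt h4
      omega

theorem p_sel : S_sel.{w, v} := by
  intro K _ R _ _ E _ V _ q hq
  obtain ⟨e, h⟩ := sel_aux K R E V q
  refine ⟨e, ?_⟩
  rcases h with h | h
  · exact h
  · exact Submodule.eq_of_le_of_finrank_le (iSup_le fun a => le_iSup V (e a)) (hq.trans h)

end Pool.Agent.Lib.MP_ae0f86_nt.GC
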