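import Pool.Agent.Lib.MP_ae0f86_nt.GC.Stm

/-!
# MP_ae0f86_nt : piece [GC sem]

The dimension of (a part of) a row, or of its image under a linear map, is lower semicontinuous in
the cycle.
-/

set_option autoImplicit false

open CategoryTheory CategoryTheory.Limits Opposite MonoidalCategory Filter

universe w v u

namespace Pool.Agent.Lib.MP_ae0f86_nt.GC

noncomputable section

attribute [local instance] CategoryTheory.Abelian.hasFiniteBiproducts

section Sem

variable {A : Type u} [Category.{v} A] [Abelian A] [MonoidalCategory A] [SymmetricCategory A]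
  (HdR : A ⥤ ModuleCat.{0} QBar) (HB : A ⥤ ModuleCat.{0} ℚ) [FibreFunctor HdR]
  [FibreFunctor HB]

private lemma sem_sum (h2 : S_arel HdR HB) {S : A → Prop} {W : A} (hW : S W)
    (ω : HdR.obj W) {ι : Type} (s : Finset ι) (q : ι → ℚ)
    (c : ι → Module.Dual ℚ (HB.obj W)) :
    asym HdR HB hW ω (∑ i ∈ s, q i • c i) =
      ∑ i ∈ s, algebraMap ℚ QBar (q i) • asym HdR HB hW ω (c i) := by
  classical
  obtain ⟨_, _, h3, h4, _, _, h7⟩ := h2 S
  induction s using Finset.induction_on with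
  | empty => rw [Finset.sum_empty, Finset.sum_empty]; exact h7 hW ω
  | insert i s his ih =>
    rw [Finset.sum_insert his, Finset.sum_insert his, h3, ih, h4, eq_ratCast]

private lemma sem_coord (h2 : S_arel HdR HB) {S : A → Prop} {W : A} (hW : S W)
    (ω : HdR.obj W) (γ : BDual HB W) :
    asym HdR HB hW ω γ = ∑ i, algebraMap ℚ QBar (γ.app (Module.finBasis ℚ (HB.obj W) i)) •
      asym HdR HB hW ω ((Module.finBasis ℚ (HB.obj W)).coord i) := by
  rw [← sem_sum HdR HB h2 hW ω Finset.univ]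
  congr 1
  exact ((Module.finBasis ℚ (HB.obj W)).sum_dual_apply_smul_coord γ).symm

theorem p_sem (h1 : S_semi.{w, 0}) (h2 : S_arel HdR HB) (h3 : S_fwfin HdR HB) :
    S_sem.{w, v, u} HdR HB := by
  intro S W hW L _ _ e Ω γ0
  have : Module.Finite QBar (fw HdR HB hW) := h3 hW
  have key : ∀ γ : BDual HB W, {r : L | ∃ ω ∈ Ω, r = e (asym HdR HB hW ω γ)} =
      {r : L | ∃ s : Ω, r = ∑ l, algebraMap ℚ QBar (γ.app (Module.finBasis ℚ (HB.obj W) l)) •
        e (asym HdR HB hW s.1 ((Module.finBasis ℚ (HB.obj W)).coord l))} := by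
    intro γ
    have hs : ∀ ω : HdR.obj W, e (asym HdR HB hW ω γ) =
        ∑ l, algebraMap ℚ QBar (γ.app (Module.finBasis ℚ (HB.obj W) l)) •
        e (asym HdR HB hW ω ((Module.finBasis ℚ (HB.obj W)).coord l)) := by
      intro ω
      rw [sem_coord HdR HB h2 hW ω γ, map_sum]
      simp only [map_smul]
    ext r
    constructor
    · rintro ⟨ω, hω, rfl⟩
      exact ⟨⟨ω, hω⟩, hs ω⟩
    · rintro ⟨⟨ω, hω⟩, rfl⟩
      exact ⟨ω, hω, (hs ω).symm⟩
  obtain ⟨P, hP0, hP⟩ := h1 QBar (Module.finrank ℚ (HB.obj W)) Ω L ((fw HdR HB hW).map e)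
    (fun s l => e (asym HdR HB hW s.1 ((Module.finBasis ℚ (HB.obj W)).coord l)))
    (fun s l => Submodule.mem_map_of_mem (Submodule.subset_span ⟨_, _, rfl⟩))
    (fun l => algebraMap ℚ QBar (γ0.app (Module.finBasis ℚ (HB.obj W) l)))
  refine ⟨P, ?_, fun γ hγ => ?_⟩
  · rintro rfl
    exact hP0 (map_zero _)
  · beta_reduce
    rw [key γ0, key γ]
    exact hP _ hγ

end Sem

end

end Pool.Agent.Lib.MP_ae0f86_nt.GC
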