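import Pool.Agent.Lib.MP_ae0f86_nt.GC.Stm

/-!
# MP_ae0f86_nt : [GC semi] lower semicontinuity of the rank of a linear family
-/

set_option autoImplicit false

open CategoryTheory CategoryTheory.Limits Opposite MonoidalCategory Filter

universe w v u

namespace Pool.Agent.Lib.MP_ae0f86_nt.GC

noncomputable section

theorem p_semi : S_semi.{w, v} := by
  intro K _ d J L _ _ F _ φ hφ x0
  have hfin : ∀ x : Fin d → K,
      Module.Finite K (Submodule.span K {r | ∃ s, r = ∑ l, x l • φ s l}) := by
    intro x
    refine Submodule.finiteDimensional_of_le (S₂ := F) (Submodule.span_le.2 ?_)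
    rintro r ⟨s, rfl⟩
    exact Submodule.sum_mem _ fun l _ => Submodule.smul_mem _ _ (hφ s l)
  have h0 := hfin x0
  obtain ⟨q, hq, f, hf, hli⟩ : ∃ q : ℕ,
      Module.finrank K (Submodule.span K {r | ∃ s, r = ∑ l, x0 l • φ s l}) = q ∧
      ∃ f : Fin q → L, (∀ i, f i ∈ {r | ∃ s, r = ∑ l, x0 l • φ s l}) ∧ LinearIndependent K f := by
    obtain ⟨f, hf, -, hli⟩ := Submodule.exists_fun_fin_finrank_span_eq K
      {r | ∃ s, r = ∑ l, x0 l • φ s l}
    exact ⟨_, rfl, f, hf, hli⟩
  choose s hs using hf
  obtain ⟨g, hg⟩ := LinearMap.exists_leftInverse_of_injective (Fintype.linearCombination K f)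
    (by
      rw [LinearMap.ker_eq_bot]
      exact linearIndependent_iff_injective_fintypeLinearCombination.1 hli)
  have hgf : ∀ a, g (f a) = Pi.single a 1 := by
    intro a
    have := LinearMap.congr_fun hg (Pi.single a 1)
    rw [LinearMap.comp_apply, Fintype.linearCombination_apply_single, one_smul] at this
    exact this
  let M : Matrix (Fin q) (Fin q) (MvPolynomial (Fin d) K) :=
    fun a b => ∑ l, MvPolynomial.C (g (φ (s a) l) b) * MvPolynomial.X l
  have hM : ∀ x : Fin d → K, MvPolynomial.eval x M.det =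
      Matrix.det (Matrix.of fun a b => g (∑ l, x l • φ (s a) l) b) := by
    intro x
    rw [RingHom.map_det]
    congr 1
    ext a b
    rw [RingHom.mapMatrix_apply, Matrix.map_apply, Matrix.of_apply, map_sum, map_sum,
      Finset.sum_apply]
    refine Finset.sum_congr rfl fun l _ => ?_
    rw [map_mul, MvPolynomial.eval_C, MvPolynomial.eval_X, map_smul, Pi.smul_apply, smul_eq_mul,
      mul_comm]
  refine ⟨M.det, ?_, fun x hx => ?_⟩
  · rw [hM]
    have : (Matrix.of fun a b => g (∑ l, x0 l • φ (s a) l) b) = (1 : Matrix (Fin q) (Fin q) K) := by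
      ext a b
      rw [Matrix.of_apply, ← hs, hgf, Matrix.one_apply, Pi.single_apply]
      simp only [eq_comm]
    rw [this, Matrix.det_one]
    exact one_ne_zero
  · rw [hM] at hx
    have h1 : LinearIndependent K (fun a => g (∑ l, x l • φ (s a) l)) :=
      Matrix.linearIndependent_rows_of_det_ne_zero hx
    have h2 : LinearIndependent K (fun a => ∑ l, x l • φ (s a) l) := LinearIndependent.of_comp g h1
    have h3 := finrank_span_eq_card h2
    rw [Fintype.card_fin] at h3
    rw [hq, ← h3]
    have := hfin x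
    refine Submodule.finrank_mono (Submodule.span_mono ?_)
    rintro r ⟨a, rfl⟩
    exact ⟨s a, rfl⟩

end

end Pool.Agent.Lib.MP_ae0f86_nt.GC
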