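import Pool.Agent.Lib.MP_ae0f86_nt.GC.Stm

/-!
# MP_ae0f86_nt : piece [GC tcop]
-/

set_option autoImplicit false

open CategoryTheory CategoryTheory.Limits Opposite MonoidalCategory Filter

universe w v u

namespace Pool.Agent.Lib.MP_ae0f86_nt.GC

noncomputable section

attribute [local instance] CategoryTheory.Abelian.hasFiniteBiproducts

variable {A : Type u} [Category.{v} A] [Abelian A] [MonoidalCategory A] [SymmetricCategory A]

theorem tcop_pos (HB : A ⥤ ModuleCat.{0} ℚ) [FibreFunctor HB] {B : A} (hB : ¬ IsZero B) :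
    0 < Module.finrank ℚ (HB.obj B) := by
  have : Nontrivial (HB.obj B) := by
    by_contra hn
    rw [not_nontrivial_iff_subsingleton] at hn
    apply hB
    rw [IsZero.iff_id_eq_zero]
    apply HB.map_injective
    ext y
    exact Subsingleton.elim _ _
  exact Module.finrank_pos

theorem tcop_not (HB : A ⥤ ModuleCat.{0} ℚ) [FibreFunctor HB] {B : A}
    (hB : 0 < Module.finrank ℚ (HB.obj B)) : ¬ IsZero B := by
  intro h
  rw [IsZero.iff_id_eq_zero] at h
  have hn : Nontrivial (HB.obj B) := Module.nontrivial_of_finrank_pos hB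
  obtain ⟨y, hy⟩ := exists_ne (0 : HB.obj B)
  apply hy
  have h1 : (HB.map (𝟙 B)).hom y = y := by rw [HB.map_id]; rfl
  have h2 : (HB.map (0 : B ⟶ B)).hom y = 0 := by rw [HB.map_zero]; rfl
  rw [← h1, h, h2]

theorem tcop_tensor (HB : A ⥤ ModuleCat.{0} ℚ) [FibreFunctor HB] {M N : A}
    (hM : 0 < Module.finrank ℚ (HB.obj M)) (hN : 0 < Module.finrank ℚ (HB.obj N)) :
    0 < Module.finrank ℚ (HB.obj (M ⊗ N)) := by
  have e := LinearEquiv.ofBijective _ (FibreFunctor.bij (H := HB) M N)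
  rw [← e.finrank_eq, Module.finrank_tensorProduct]
  exact Nat.mul_pos hM hN

theorem tcop_unit (HB : A ⥤ ModuleCat.{0} ℚ) [FibreFunctor HB] :
    0 < Module.finrank ℚ (HB.obj (𝟙_ A)) := by
  have hn : Nontrivial (HB.obj (𝟙_ A)) := by
    refine ⟨⟨(1 : ℚ) • FibreFunctor.one (H := HB), (0 : ℚ) • FibreFunctor.one (H := HB), ?_⟩⟩
    intro h
    exact one_ne_zero ((FibreFunctor.one_bij (H := HB)).1 h)
  exact Module.finrank_pos

theorem tcop_tpow (HB : A ⥤ ModuleCat.{0} ℚ) [FibreFunctor HB] {M : A}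
    (hM : 0 < Module.finrank ℚ (HB.obj M)) (n : ℕ) :
    0 < Module.finrank ℚ (HB.obj (tpow M n)) := by
  induction n with
  | zero => exact tcop_unit HB
  | succ n ih => exact tcop_tensor HB ih hM

omit [SymmetricCategory A] in
theorem tcop_gen [RigidCategory A] {T B : A} (h : Gen T B) (n : ℕ) : Gen T (tpow B n) := by
  induction n with
  | zero => exact Gen.unit
  | succ n ih => exact Gen.tensor ih h

theorem p_tcop (HB : A ⥤ ModuleCat.{0} ℚ) [FibreFunctor HB] (h1 : S_cop HB) (h2 : S_pas HB)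
    (h3 : S_ext HB) (h4 : S_tiso A) : S_tcop HB := by
  intro _ _ T hT m r
  obtain ⟨B, C, i, j, hi, hj, hB, hC, hs⟩ := h3 T hT
  have hr : r - r / 2 + r / 2 = r := Nat.sub_add_cancel (Nat.div_le_self r 2)
  refine ⟨tpow B (r - r / 2) ⊗ tpow C (r / 2), ?_, ?_, ?_⟩
  · have hTT : Gen T (T ⊗ T) := Gen.tensor Gen.base Gen.base
    exact Gen.tensor (tcop_gen (Gen.sub i hTT) _) (tcop_gen (Gen.sub j hTT) _)
  · exact tcop_not HB (tcop_tensor HB (tcop_tpow HB (tcop_pos HB hB) _)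
      (tcop_tpow HB (tcop_pos HB hC) _))
  · have hc := h2 (T ⊗ T) B C hs (r - r / 2) (r / 2)
    rw [hr] at hc
    have h5 := h1.2.2.1 _ _ _ _ _ _ (h1.1 (tpow T m) (tpow T m) (Iso.refl _)) hc
    obtain ⟨e⟩ := h4.2.2.2 T m r
    have h6 := h1.2.1 _ _ _ _ _ h5 (h1.1 _ _ e.symm)
    rwa [one_mul, mul_one] at h6

end

end Pool.Agent.Lib.MP_ae0f86_nt.GC
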