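import Pool.Agent.Lib.MP_ae0f86_nt.GC.Stm

/-!
# MP_ae0f86_nt : piece [GC tiso] (helper80)
-/

set_option autoImplicit false

open CategoryTheory CategoryTheory.Limits Opposite MonoidalCategory Filter

universe w v u

namespace Pool.Agent.Lib.MP_ae0f86_nt.GC

noncomputable section

variable {A : Type u} [Category.{v} A] [MonoidalCategory A]

theorem tiso_add (T : A) (a b : ℕ) : Nonempty (tpow T (a + b) ≅ tpow T a ⊗ tpow T b) := by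
  induction b with
  | zero => exact ⟨(ρ_ (tpow T a)).symm⟩
  | succ b ih =>
    obtain ⟨e⟩ := ih
    have e1 : tpow T (a + b) ⊗ T ≅ tpow T a ⊗ (tpow T b ⊗ T) :=
      (e ⊗ᵢ Iso.refl T) ≪≫ α_ (tpow T a) (tpow T b) T
    exact ⟨e1⟩

theorem tiso_two (T : A) (r : ℕ) : Nonempty (tpow (T ⊗ T) r ≅ tpow T (2 * r)) := by
  induction r with
  | zero => exact ⟨Iso.refl _⟩
  | succ r ih =>
    obtain ⟨e⟩ := ih
    have e1 : tpow (T ⊗ T) r ⊗ (T ⊗ T) ≅ (tpow T (2 * r) ⊗ T) ⊗ T :=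
      (e ⊗ᵢ Iso.refl (T ⊗ T)) ≪≫ (α_ (tpow T (2 * r)) T T).symm
    exact ⟨e1⟩

theorem tiso_unit (n : ℕ) : Nonempty (tpow (𝟙_ A) n ≅ 𝟙_ A) := by
  induction n with
  | zero => exact ⟨Iso.refl _⟩
  | succ n ih =>
    obtain ⟨e⟩ := ih
    have e1 : tpow (𝟙_ A) n ⊗ 𝟙_ A ≅ 𝟙_ A := ρ_ (tpow (𝟙_ A) n) ≪≫ e
    exact ⟨e1⟩

end

noncomputable section

/-- [GC tiso] -/
theorem p_tiso (A : Type u) [Category.{v} A] [MonoidalCategory A] [SymmetricCategory A] :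
    S_tiso A := by
  refine ⟨tiso_add, tiso_two, tiso_unit, fun T a r => ?_⟩
  obtain ⟨e⟩ := tiso_add T a (2 * r)
  obtain ⟨f⟩ := tiso_two T r
  exact ⟨e ≪≫ (Iso.refl (tpow T a) ⊗ᵢ f.symm)⟩

end

end Pool.Agent.Lib.MP_ae0f86_nt.GC
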