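import Pool.Agent.Lib.MP_ae0f86_nt.GC.Stm

/-!
# MP_ae0f86_nt : piece [GC ucop]
-/

set_option autoImplicit false

open CategoryTheory CategoryTheory.Limits Opposite MonoidalCategory Filter

universe w v u

namespace Pool.Agent.Lib.MP_ae0f86_nt.GC

noncomputable section

attribute [local instance] CategoryTheory.Abelian.hasFiniteBiproducts

variable {A : Type u} [Category.{v} A] [Abelian A] [MonoidalCategory A] [SymmetricCategory A]

omit [Abelian A] [SymmetricCategory A] in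
theorem ucop_one (n : ℕ) : Nonempty (tpow (𝟙_ A) n ≅ 𝟙_ A) := by
  induction n with
  | zero => exact ⟨Iso.refl _⟩
  | succ n ih =>
    obtain ⟨e⟩ := ih
    exact ⟨(ρ_ (tpow (𝟙_ A) n)) ≪≫ e⟩

theorem ucop_splits (HB : A ⥤ ModuleCat.{0} ℚ) [FibreFunctor HB] (M : A) :
    Splits HB (uT M) (𝟙_ A) M := by
  refine ⟨biprod.inl, biprod.fst, biprod.inr, biprod.snd, ?_, ?_, ?_, ?_⟩
  · intro y
    have h : (HB.map ((biprod.inl : 𝟙_ A ⟶ 𝟙_ A ⊞ M) ≫ (biprod.fst : 𝟙_ A ⊞ M ⟶ 𝟙_ A))).hom y = y := by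
      rw [biprod.inl_fst, HB.map_id]; rfl
    rw [HB.map_comp] at h
    exact h
  · intro y
    have h : (HB.map ((biprod.inr : M ⟶ 𝟙_ A ⊞ M) ≫ (biprod.snd : 𝟙_ A ⊞ M ⟶ M))).hom y = y := by
      rw [biprod.inr_snd, HB.map_id]; rfl
    rw [HB.map_comp] at h
    exact h
  · intro y
    have h : (HB.map (biprod.inl ≫ biprod.snd : 𝟙_ A ⟶ M)).hom y = 0 := by
      rw [biprod.inl_snd, HB.map_zero]; rfl
    rw [HB.map_comp] at h
    exact h
  · intro y
    have h : (HB.map (biprod.inr ≫ biprod.fst : M ⟶ 𝟙_ A)).hom y = 0 := by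
      rw [biprod.inr_fst, HB.map_zero]; rfl
    rw [HB.map_comp] at h
    exact h

theorem p_ucop (HB : A ⥤ ModuleCat.{0} ℚ) [FibreFunctor HB] (h1 : S_cop HB) (h2 : S_pas HB) :
    S_ucop HB := by
  intro M n j hj
  have hs := h2 (uT M) (𝟙_ A) M (ucop_splits HB M) (n - j) j
  rw [Nat.sub_add_cancel hj] at hs
  obtain ⟨e⟩ := ucop_one (A := A) (n - j)
  have e2 : tpow M j ≅ tpow (𝟙_ A) (n - j) ⊗ tpow M j :=
    ((whiskerRightIso e (tpow M j)) ≪≫ (λ_ (tpow M j))).symm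
  have h3 := h1.2.1 _ _ _ _ _ (h1.1 _ _ e2) hs
  rwa [one_mul] at h3

end

end Pool.Agent.Lib.MP_ae0f86_nt.GC
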