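import Pool.Agent.Lib.MP_ae0f86_nt.GC.Stm

/-!
# MP_ae0f86_nt : piece [GC ufull], generic rows of the powers of `1 ⊕ M`
-/

set_option autoImplicit false

universe v u

open CategoryTheory CategoryTheory.Limits Opposite MonoidalCategory Filter

namespace Pool.Agent.Lib.MP_ae0f86_nt.GC

noncomputable section

attribute [local instance] CategoryTheory.Abelian.hasFiniteBiproducts

section Full

variable {A : Type u} [Category.{v} A] [Abelian A] [MonoidalCategory A] [SymmetricCategory A]
  [RigidCategory A] {HdR : A ⥤ ModuleCat.{0} QBar} {HB : A ⥤ ModuleCat.{0} ℚ}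
  [FibreFunctor HdR] [FibreFunctor HB]

/-- The zero number of copies. -/
private theorem ufull_copies_zero (N W : A) : HasCopies HB N W 0 :=
  ⟨fun a => a.elim0, fun a => a.elim0, fun a => a.elim0⟩

/-- `(1 ⊕ M)^{⊗ n}` contains `choose n j` copies of `M^{⊗ j}`, for all `j`. -/
private theorem ufull_copies (h2 : S_ucop HB) (M : A) (n j : ℕ) :
    HasCopies HB (tpow M j) (tpow (uT M) n) (Nat.choose n j) := by
  rcases Nat.lt_or_ge n j with hj | hj
  · rw [Nat.choose_eq_zero_of_lt hj]
    exact ufull_copies_zero _ _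
  · exact h2 M n j hj

/-- [GC ufull] -/
theorem p_ufull (c : Comparison HdR HB) (h1 : S_gen HdR HB) (h2 : S_ucop HB) (h3 : S_fwpow c)
    (h4 : S_mch) (h5 : S_and HB) (h6 : S_genclosed (A := A)) : S_ufull c := by
  intro _ M n
  obtain ⟨htriv, hmono, -, hand, -, -⟩ := h5
  obtain ⟨-, h3b, h3c⟩ := h3
  obtain ⟨h4a, -, -⟩ := h4
  have key : ∀ j < n + 2, ForGeneric HB (tpow (uT M) n) (fun γ =>
      j + (Module.finrank ℚ (HB.obj M)) ^ 2 ≤ n + 1 →
        fw HdR HB (genpow_mem M j) ≤ row HdR HB (uTpow_mem M n) γ) := by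
    intro j _
    by_cases hj : j + (Module.finrank ℚ (HB.obj M)) ^ 2 ≤ n + 1
    · have e : Module.finrank QBar (fw HdR HB (genpow_mem M j)) ≤ Nat.choose n j :=
        (h3b (h6.1 M) (T := M) Gen.base j (genpow_mem M j)).trans (h4a _ _ _ hj)
      exact hmono _ _ _ (h1 (genpow_mem M j) (uTpow_mem M n) _ (ufull_copies h2 M n j) e)
        fun γ hγ _ => hγ
    · exact htriv _ _ fun γ h => absurd h hj
  refine hmono _ _ _ (hand _ (n + 2) _ key) fun γ hγ m hm => ?_
  exact (h3c M m).trans (iSup_le fun j => hγ j (by omega) (by omega))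

end Full

end

end Pool.Agent.Lib.MP_ae0f86_nt.GC
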