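import Pool.Agent.Lib.MP_ae0f86_nt.GC.Stm

/-!
# MP_ae0f86_nt : piece [GC ggrow], growth of the predicted numbers of the tensor powers
-/

set_option autoImplicit false

open CategoryTheory CategoryTheory.Limits Opposite MonoidalCategory Filter

universe w v u

namespace Pool.Agent.Lib.MP_ae0f86_nt.GC

noncomputable section

attribute [local instance] CategoryTheory.Abelian.hasFiniteBiproducts

variable {A : Type u} [Category.{v} A] [Abelian A] [MonoidalCategory A] [SymmetricCategory A]
  [RigidCategory A] {HdR : A ⥤ ModuleCat.{0} QBar} {HB : A ⥤ ModuleCat.{0} ℚ} [FibreFunctor HdR]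
  [FibreFunctor HB]

/-- Piece [GC ggrow]. -/
theorem p_ggrow (c : Comparison HdR HB) (h1 : S_ghilb.{u}) (h2 : S_fwpow c)
    (h3 : S_fwdim (A := A)) (h4 : S_fwfin HdR HB) (h5 : S_genclosed (A := A)) : S_ggrow c := by
  intro _ T N hN n
  have hcl : TClosed (Gen T) := h5.1 T
  have : Module.Finite QBar (fw HdR HB (S := Gen T) (W := T) Gen.base) := h4 Gen.base
  have hpow : ∀ k : ℕ, Nf HB (tpow T k) =
      Module.finrank QBar ↥((fw HdR HB (S := Gen T) (W := T) Gen.base) ^ k) := by
    intro k
    rw [← h2.1 hcl Gen.base k (genpow_mem T k)]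
    exact (h3 c hcl (genpow_mem T k)).symm
  have hone : Module.finrank QBar (fw HdR HB (S := Gen T) (W := T) Gen.base) ≤ N + 1 := by
    rw [h3 c hcl (Gen.base : Gen T T)]
    exact hN
  rw [hpow, hpow]
  exact h1 QBar (PerAlg HdR HB (Gen T)) (fw HdR HB (S := Gen T) (W := T) Gen.base) N hone n

end

end Pool.Agent.Lib.MP_ae0f86_nt.GC
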