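import Pool.Agent.Lib.MP_ae0f86_nt.GC.Stm

/-!
# MP_ae0f86_nt : piece [GC rk]
-/

set_option autoImplicit false
set_option linter.unusedSectionVars false

open CategoryTheory CategoryTheory.Limits Opposite MonoidalCategory Filter

universe w v u

namespace Pool.Agent.Lib.MP_ae0f86_nt.GC

noncomputable section

attribute [local instance] CategoryTheory.Abelian.hasFiniteBiproducts

section

variable {A : Type u} [Category.{v} A] [Abelian A] [MonoidalCategory A]
    [SymmetricCategory A] (HB : A ⥤ ModuleCat.{0} ℚ) [FibreFunctor HB]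

private theorem rk_inj {N N' : A} (i : N' ⟶ N) [Mono i] :
    Function.Injective (HB.map i).hom := by
  have : Mono (HB.map i) := inferInstance
  exact (ModuleCat.mono_iff_injective _).mp this

private theorem rk_surj {N N' : A} (p : N ⟶ N') [Epi p] :
    Function.Surjective (HB.map p).hom := by
  have : Epi (HB.map p) := inferInstance
  exact (ModuleCat.epi_iff_surjective _).mp this

private theorem rk_exact {N N' : A} (i : N' ⟶ N) (x : HB.obj N)
    (hx : (HB.map (cokernel.π i)).hom x = 0) : ∃ y, (HB.map i).hom y = x := by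
  have h := (ShortComplex.exact_cokernel i).map HB
  exact (ShortComplex.moduleCat_exact_iff _).mp h x hx

private theorem rk_zero {N N' : A} (i : N' ⟶ N)
    (h : Function.Injective (HB.map (cokernel.π i)).hom) : i = 0 := by
  have h1 : HB.map i = HB.map 0 := by
    rw [HB.map_zero]
    ext x
    apply h
    have h2 : HB.map i ≫ HB.map (cokernel.π i) = 0 := by
      rw [← HB.map_comp, cokernel.condition, HB.map_zero]
    have h3 := congrArg (fun f => f.hom x) h2
    simpa using h3
  exact HB.map_injective h1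

/-- a linear form which vanishes on `HB(N')` comes from the cokernel -/
private theorem rk_ext {N N' : A} (i : N' ⟶ N) (σ : BDual HB N) (hσ : σ.pull i = 0) :
    ∃ σ' : BDual HB (cokernel i), σ = σ'.pull (cokernel.π i) := by
  have hsur := rk_surj HB (cokernel.π i)
  obtain ⟨s, hs⟩ := LinearMap.exists_rightInverse_of_surjective (HB.map (cokernel.π i)).hom
    (LinearMap.range_eq_top.mpr hsur)
  refine ⟨σ ∘ₗ s, ?_⟩
  apply LinearMap.ext
  intro x
  have h5 : (HB.map (cokernel.π i)).hom (x - s ((HB.map (cokernel.π i)).hom x)) = 0 := by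
    rw [map_sub]
    have := LinearMap.congr_fun hs ((HB.map (cokernel.π i)).hom x)
    simp only [LinearMap.comp_apply, LinearMap.id_apply] at this
    rw [this, sub_self]
  obtain ⟨y, hy⟩ := rk_exact HB i _ h5
  have h6 : σ (x - s ((HB.map (cokernel.π i)).hom x)) = 0 := by
    rw [← hy]
    exact LinearMap.congr_fun hσ y
  rw [map_sub, sub_eq_zero] at h6
  exact h6

private theorem rk_pull {W N Q : A} (p : W ⟶ N) (q : N ⟶ Q) (σ : BDual HB Q) :
    (σ.pull q).pull p = σ.pull (p ≫ q) := by
  apply LinearMap.ext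
  intro x
  simp [HB.map_comp]

end

variable {A : Type u} [Category.{v} A] [Abelian A] [MonoidalCategory A] [SymmetricCategory A]
  {HdR : A ⥤ ModuleCat.{0} QBar} {HB : A ⥤ ModuleCat.{0} ℚ} [FibreFunctor HdR]
  [FibreFunctor HB]

theorem p_rk (c : Comparison HdR HB) (h1 : S_row HdR HB) (h2 : S_arel HdR HB)
    (h3 : S_vans (A := A)) (h4 : S_rank (A := A)) : S_rk c := by
  intro _ S hS W hW γ
  obtain ⟨-, hmem, -, -, -, hepi⟩ := h1
  obtain ⟨hal, hsl, -, -, hnat, -, -⟩ := h2 S
  -- the linear map of a row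
  have hrow : ∀ {N : A} (hN : S N) (σ : BDual HB N), ∃ L : HdR.obj N →ₗ[QBar] PerAlg HdR HB S,
      (∀ ω, L ω = asym HdR HB hN ω σ) ∧ row HdR HB hN σ = LinearMap.range L := by
    intro N hN σ
    let L : HdR.obj N →ₗ[QBar] PerAlg HdR HB S :=
      { toFun := fun ω => asym HdR HB hN ω σ
        map_add' := fun ω ω' => hal hN ω ω' σ
        map_smul' := fun a ω => hsl hN a ω σ }
    refine ⟨L, fun ω => rfl, ?_⟩
    ext x
    rw [hmem hN σ x, LinearMap.mem_range]
    constructor
    · rintro ⟨ω, rfl⟩; exact ⟨ω, rfl⟩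
    · rintro ⟨ω, rfl⟩; exact ⟨ω, rfl⟩
  have hrle : ∀ {N : A} (hN : S N) (σ : BDual HB N),
      Module.finrank QBar (row HdR HB hN σ) ≤ Module.finrank ℚ (HB.obj N) := by
    intro N hN σ
    obtain ⟨L, -, hL⟩ := hrow hN σ
    rw [hL, ← h4 c N]
    exact LinearMap.finrank_range_le L
  -- factorisation through the image
  have hfac : ∀ (Q : A) (q : W ⟶ Q) (δ : BDual HB Q), δ.pull q = γ →
      ∃ (Q' : A) (_ : S Q') (p : W ⟶ Q') (δ' : BDual HB Q'), Epi p ∧ δ'.pull p = γ ∧
        Module.finrank ℚ (HB.obj Q') ≤ Module.finrank ℚ (HB.obj Q) := by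
    intro Q q δ hδ
    refine ⟨Abelian.image q, hS.quot (Abelian.factorThruImage q) hW, Abelian.factorThruImage q,
      δ.pull (Abelian.image.ι q), inferInstance, ?_,
      LinearMap.finrank_le_finrank_of_injective (rk_inj HB (Abelian.image.ι q))⟩
    rw [rk_pull, Abelian.image.fac, hδ]
  have hrowepi : ∀ {Q : A} (hQ : S Q) (p : W ⟶ Q) (δ : BDual HB Q), Epi p → δ.pull p = γ →
      row HdR HB hW γ = row HdR HB hQ δ := by
    intro Q hQ p δ hp hδ
    rw [← hδ]
    exact hepi hW hQ p δ hp
  have hne : {d | ∃ (Q : A) (q : W ⟶ Q) (δ : BDual HB Q),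
      δ.pull q = γ ∧ Module.finrank ℚ (HB.obj Q) = d}.Nonempty := by
    refine ⟨_, W, 𝟙 W, γ, ?_, rfl⟩
    apply LinearMap.ext
    intro x
    simp
  obtain ⟨Q, q, δ, hδ, hd⟩ := Nat.sInf_mem hne
  have hd' : Module.finrank ℚ (HB.obj Q) = cycleExpected HB γ := hd
  have hmin : ∀ (Q' : A) (q' : W ⟶ Q') (δ' : BDual HB Q'), δ'.pull q' = γ →
      cycleExpected HB γ ≤ Module.finrank ℚ (HB.obj Q') := by
    intro Q' q' δ' h'
    exact Nat.sInf_le ⟨Q', q', δ', h', rfl⟩
  obtain ⟨Q', hQ', p, δ', hp, hδ', hle⟩ := hfac Q q δ hδ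
  have hrk := hrowepi hQ' p δ' hp hδ'
  apply le_antisymm
  · obtain ⟨L, hLa, hL⟩ := hrow hQ' δ'
    have hinj : Function.Injective L := by
      rw [← LinearMap.ker_eq_bot, LinearMap.ker_eq_bot']
      intro ω hω
      rw [hLa] at hω
      obtain ⟨N', i, hi, ⟨ω', rfl⟩, hi0⟩ := h3 HdR HB S hS hQ' ω δ' hω
      obtain ⟨δ'', hδ''⟩ := rk_ext HB i δ' hi0
      have hsur := rk_surj HB (cokernel.π i)
      have h5 : δ''.pull (p ≫ cokernel.π i) = γ := by
        rw [← rk_pull, ← hδ'', hδ']
      have h6 := hmin _ _ _ h5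
      have heq : Module.finrank ℚ (HB.obj Q') = Module.finrank ℚ (HB.obj (cokernel i)) := by
        apply le_antisymm
        · omega
        · exact LinearMap.finrank_le_finrank_of_surjective hsur
      have h7 := rk_zero HB i
        ((LinearMap.injective_iff_surjective_of_finrank_eq_finrank heq).mpr hsur)
      subst h7
      simp [act]
    rw [hrk, hL, LinearMap.finrank_range_of_inj hinj, h4 c Q']
    exact hmin Q' p δ' hδ'
  · rw [hrk, ← hd']
    exact (hrle hQ' δ').trans hle

end

end Pool.Agent.Lib.MP_ae0f86_nt.GC
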